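import Pool.Agent.H49.KB.Base

namespace H49KB

open H49KA

universe u v w

section
variable {k : Type v} [Field k] {V : Type w} [AddCommGroup V] [Module k V]

/-- `g - a` has rank at most `c` -/
def SmallRank (c : ℕ) (g : V ≃ₗ[k] V) (a : k) : Prop :=
  ∃ w : Fin c → V, ∀ v : V, ∃ b : Fin c → k, g v - a • v = ∑ i, b i • w i

end

end H49KB
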