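import Pool.Agent.H49.KA.Base
import Pool.Agent.H49.KB.Defs

namespace H49KB

open H49KA

universe u v w

variable {G : Type u} [Group G]

section ultra

variable {I : Type u} (𝒰 : Ultrafilter I) (k : I → Type) [∀ i, Field (k i)]
  (V : I → Type) [∀ i, AddCommGroup (V i)] [∀ i, Module (k i) (V i)]

/-- the ideal of the families which are eventually zero -/
private def u1Ideal : Ideal (∀ i, k i) where
  carrier := {x | ∀ᶠ i in (𝒰 : Filter I), x i = 0}
  add_mem' := by
    intro x y hx hy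
    filter_upwards [hx, hy] with i h1 h2
    rw [Pi.add_apply, h1, h2, add_zero]
  zero_mem' := Filter.Eventually.of_forall fun _ => rfl
  smul_mem' := by
    intro c x hx
    filter_upwards [hx] with i h1
    rw [smul_eq_mul, Pi.mul_apply, h1, mul_zero]

/-- the submodule of the families of vectors which are eventually zero -/
private def u1Sub : Submodule (∀ i, k i) (∀ i, V i) where
  carrier := {x | ∀ᶠ i in (𝒰 : Filter I), x i = 0}
  add_mem' := by
    intro x y hx hy
    filter_upwards [hx, hy] with i h1 h2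
    rw [Pi.add_apply, h1, h2, add_zero]
  zero_mem' := Filter.Eventually.of_forall fun _ => rfl
  smul_mem' := by
    intro c x hx
    filter_upwards [hx] with i h1
    rw [Pi.smul_apply', h1, smul_zero]

private theorem u1_mem (x : ∀ i, k i) :
    x ∈ u1Ideal 𝒰 k ↔ ∀ᶠ i in (𝒰 : Filter I), x i = 0 := Iff.rfl

private theorem u1_memN (x : ∀ i, V i) :
    x ∈ u1Sub 𝒰 k V ↔ ∀ᶠ i in (𝒰 : Filter I), x i = 0 := Iff.rfl

private theorem u1_max : (u1Ideal 𝒰 k).IsMaximal := by
  classical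
  rw [Ideal.isMaximal_iff]
  constructor
  · intro h
    rw [u1_mem] at h
    obtain ⟨i, hi⟩ := h.exists
    exact one_ne_zero hi
  · intro J x hJ hx hxJ
    rw [u1_mem, ← Ultrafilter.eventually_not] at hx
    set y : ∀ i, k i := fun i => (x i)⁻¹ with hy
    have h1 : 1 - y * x ∈ u1Ideal 𝒰 k := by
      rw [u1_mem]
      filter_upwards [hx] with i hi
      rw [Pi.sub_apply, Pi.one_apply, Pi.mul_apply, hy]
      show 1 - (x i)⁻¹ * x i = 0
      rw [inv_mul_cancel₀ hi, sub_self]
    have h2 := J.add_mem (hJ h1) (J.mul_mem_left y hxJ)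
    rwa [sub_add_cancel] at h2

private theorem u1_tor :
    Module.IsTorsionBySet (∀ i, k i) ((∀ i, V i) ⧸ u1Sub 𝒰 k V) (u1Ideal 𝒰 k) := by
  intro w a
  obtain ⟨v, rfl⟩ := Submodule.mkQ_surjective _ w
  have h : (a : ∀ i, k i) • v ∈ u1Sub 𝒰 k V := by
    rw [u1_memN]
    filter_upwards [(u1_mem 𝒰 k _).1 a.2] with i hi
    rw [Pi.smul_apply', hi, zero_smul]
  rw [← map_smul]
  exact (Submodule.Quotient.mk_eq_zero _).2 h

end ultra

private theorem u1_core {R : Type u} [CommRing R] (J : Ideal R) (hJ : J.IsMaximal) {M : Type u}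
    [AddCommGroup M] [Module R M] (N : Submodule R M)
    (htor : Module.IsTorsionBySet R (M ⧸ N) J) :
    ∃ (K : Type u) (_ : Field K) (W : Type u) (_ : AddCommGroup W) (_ : Module K W)
      (φ : R →+* K) (ψ : M →+ W), Function.Surjective φ ∧ Function.Surjective ψ ∧
      (∀ x, φ x = 0 ↔ x ∈ J) ∧ (∀ v, ψ v = 0 ↔ v ∈ N) ∧
      ∀ (x : R) (v : M), ψ (x • v) = φ x • ψ v := by
  let _ : Field (R ⧸ J) := Ideal.Quotient.field J
  let _ : Module (R ⧸ J) (M ⧸ N) := htor.module
  refine ⟨R ⧸ J, inferInstance, M ⧸ N, inferInstance, inferInstance, Ideal.Quotient.mk J,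
    N.mkQ.toAddMonoidHom, Ideal.Quotient.mk_surjective, Submodule.mkQ_surjective N,
    fun x => Ideal.Quotient.eq_zero_iff_mem, fun v => Submodule.Quotient.mk_eq_zero N,
    fun x v => ?_⟩
  exact (map_smul N.mkQ x v).trans (Module.IsTorsionBySet.mk_smul htor x (N.mkQ v)).symm

private theorem u1_maps {R K W M : Type u} [CommRing R] [Field K] [AddCommGroup W] [Module K W]
    [AddCommGroup M] [Module R M] (φ : R →+* K) (ψ : M →+ W) (hφ : Function.Surjective φ)
    (hψ : Function.Surjective ψ) (hs : ∀ (x : R) (v : M), ψ (x • v) = φ x • ψ v)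
    {Γ : Type u} [Group Γ] (f : Γ → M → M) (hadd : ∀ g v w, f g (v + w) = f g v + f g w)
    (hsm : ∀ g (x : R) v, f g (x • v) = x • f g v) (h1 : ∀ v, f 1 v = v)
    (hm : ∀ g h v, f (g * h) v = f g (f h v)) (h0 : ∀ g v, ψ v = 0 → ψ (f g v) = 0) :
    ∃ E : Γ →* (W ≃ₗ[K] W), ∀ g v, E g (ψ v) = ψ (f g v) := by
  choose c hc using hψ
  have key : ∀ g v w, ψ v = ψ w → ψ (f g v) = ψ (f g w) := by
    intro g v w h
    have h2 : ψ (v - w) = 0 := by rw [map_sub, h, sub_self]
    have h3 := h0 g _ h2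
    have h4 : f g v = f g (v - w) + f g w := by rw [← hadd, sub_add_cancel]
    rw [h4, map_add, h3, zero_add]
  have hval : ∀ g v, ψ (f g (c (ψ v))) = ψ (f g v) := fun g v => key g _ _ (hc _)
  let E₀ : Γ →* Module.End K W :=
    { toFun := fun g =>
        { toFun := fun w => ψ (f g (c w))
          map_add' := by
            intro a b
            rw [← map_add, ← hadd]
            exact key g _ _ (by rw [hc, map_add, hc, hc])
          map_smul' := by
            intro y a
            obtain ⟨x, rfl⟩ := hφ y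
            rw [RingHom.id_apply, ← hs, ← hsm]
            exact key g _ _ (by rw [hc, hs, hc]) }
      map_one' := by
        ext w
        show ψ (f 1 (c w)) = w
        rw [h1, hc]
      map_mul' := by
        intro a b
        ext w
        show ψ (f (a * b) (c w)) = ψ (f a (c (ψ (f b (c w)))))
        rw [hval, hm] }
  exact ⟨((LinearMap.GeneralLinearGroup.generalLinearEquiv K W).toMonoidHom).comp E₀.toHomUnits,
    fun g v => hval g v⟩

/-- ultraproducts of linear groups -/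
theorem ultra_lin {I : Type u} (𝒰 : Ultrafilter I) (k : I → Type) [∀ i, Field (k i)]
    (V : I → Type) [∀ i, AddCommGroup (V i)] [∀ i, Module (k i) (V i)] :
    ∃ (K : Type u) (_ : Field K) (W : Type u) (_ : AddCommGroup W) (_ : Module K W)
      (φ : (∀ i, k i) →+* K) (ψ : (∀ i, V i) →+ W)
      (E : (∀ i, V i ≃ₗ[k i] V i) →* (W ≃ₗ[K] W)),
      Function.Surjective φ ∧ Function.Surjective ψ ∧
      (∀ x, φ x = 0 ↔ ∀ᶠ i in (𝒰 : Filter I), x i = 0) ∧
      (∀ v, ψ v = 0 ↔ ∀ᶠ i in (𝒰 : Filter I), v i = 0) ∧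
      (∀ (x : ∀ i, k i) (v : ∀ i, V i), ψ (fun i => x i • v i) = φ x • ψ v) ∧
      ∀ (g : ∀ i, V i ≃ₗ[k i] V i) (v : ∀ i, V i), E g (ψ v) = ψ (fun i => g i (v i)) := by
  obtain ⟨K, iK, W, iW, iM, φ, ψ, hφ, hψ, hφ0, hψ0, hs⟩ :=
    u1_core (u1Ideal 𝒰 k) (u1_max 𝒰 k) (u1Sub 𝒰 k V) (u1_tor 𝒰 k V)
  obtain ⟨E, hE⟩ := u1_maps φ ψ hφ hψ hs
    (fun (g : ∀ i, V i ≃ₗ[k i] V i) (v : ∀ i, V i) => fun i => g i (v i))
    (fun g v w => funext fun i => map_add (g i) (v i) (w i))
    (fun g x v => funext fun i => map_smul (g i) (x i) (v i)) (fun v => rfl)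
    (fun g h v => rfl) (fun g v hv => by
      rw [hψ0, u1_memN] at hv ⊢
      filter_upwards [hv] with i hi
      rw [hi, map_zero])
  exact ⟨K, iK, W, iW, iM, φ, ψ, E, hφ, hψ, fun x => (hφ0 x).trans (u1_mem 𝒰 k x),
    fun v => (hψ0 v).trans (u1_memN 𝒰 k V v), fun x v => hs x v, hE⟩

end H49KB
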