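import Pool.Agent.H49.KA.Base
import Pool.Agent.H49.KB.Defs
import Pool.Agent.H49.KB.U1

namespace H49KB

open H49KA

universe u v w

variable {G : Type u} [Group G]

section aux

variable {I : Type u} {k : I → Type} [∀ i, Field (k i)]
    {V : I → Type} [∀ i, AddCommGroup (V i)] [∀ i, Module (k i) (V i)]
    {K : Type u} [Field K] {W : Type u} [AddCommGroup W] [Module K W]

private theorem mk_eq_iff {k : Type v} [Field k] {V : Type w} [AddCommGroup V] [Module k V]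
    (s t : V ≃ₗ[k] V) : ((s : PGrp k V) = (t : PGrp k V)) ↔ ∃ c : k, ∀ v, t v = c • s v := by
  rw [QuotientGroup.eq]
  constructor
  · rintro ⟨c, hc⟩
    refine ⟨c, fun v => ?_⟩
    have h1 := hc v
    rw [LinearEquiv.mul_apply] at h1
    have h2 : s (s⁻¹ (t v)) = t v := by
      rw [← LinearEquiv.mul_apply, mul_inv_cancel]; rfl
    rw [← h2, h1, map_smul]
  · rintro ⟨c, hc⟩
    refine ⟨c, fun v => ?_⟩
    rw [LinearEquiv.mul_apply, hc, map_smul]
    have h2 : s⁻¹ (s v) = v := by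
      rw [← LinearEquiv.mul_apply, inv_mul_cancel]; rfl
    rw [h2]

private theorem ultra_eq (𝒰 : Ultrafilter I) (φ : (∀ i, k i) →+* K) (ψ : (∀ i, V i) →+ W)
    (E : (∀ i, V i ≃ₗ[k i] V i) →* (W ≃ₗ[K] W))
    (hψs : Function.Surjective ψ)
    (hψ : ∀ v, ψ v = 0 ↔ ∀ᶠ i in (𝒰 : Filter I), v i = 0)
    (hs : ∀ (x : ∀ i, k i) (v : ∀ i, V i), ψ (fun i => x i • v i) = φ x • ψ v)
    (hE : ∀ (g : ∀ i, V i ≃ₗ[k i] V i) (v : ∀ i, V i), E g (ψ v) = ψ (fun i => g i (v i)))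
    (s t : ∀ i, V i ≃ₗ[k i] V i)
    (h : ∀ᶠ i in (𝒰 : Filter I), (s i : PGrp (k i) (V i)) = (t i : PGrp (k i) (V i))) :
    (E s : PGrp K W) = (E t : PGrp K W) := by
  have h1 : ∀ i, ∃ c : k i, (s i : PGrp (k i) (V i)) = (t i : PGrp (k i) (V i)) →
      ∀ v, t i v = c • s i v := by
    intro i
    by_cases h2 : (s i : PGrp (k i) (V i)) = (t i : PGrp (k i) (V i))
    · obtain ⟨c, hc⟩ := (mk_eq_iff _ _).1 h2
      exact ⟨c, fun _ => hc⟩
    · exact ⟨0, fun h3 => absurd h3 h2⟩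
  choose c hc using h1
  rw [mk_eq_iff]
  refine ⟨φ c, fun w => ?_⟩
  obtain ⟨v, rfl⟩ := hψs w
  rw [hE, hE, ← hs, ← sub_eq_zero, ← map_sub, hψ]
  filter_upwards [h] with i hi
  rw [Pi.sub_apply, hc i hi, sub_self]

private theorem ultra_one (𝒰 : Ultrafilter I) (φ : (∀ i, k i) →+* K) (ψ : (∀ i, V i) →+ W)
    (E : (∀ i, V i ≃ₗ[k i] V i) →* (W ≃ₗ[K] W))
    (hφs : Function.Surjective φ)
    (hψ : ∀ v, ψ v = 0 ↔ ∀ᶠ i in (𝒰 : Filter I), v i = 0)
    (hs : ∀ (x : ∀ i, k i) (v : ∀ i, V i), ψ (fun i => x i • v i) = φ x • ψ v)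
    (hE : ∀ (g : ∀ i, V i ≃ₗ[k i] V i) (v : ∀ i, V i), E g (ψ v) = ψ (fun i => g i (v i)))
    (s : ∀ i, V i ≃ₗ[k i] V i) (h : (E s : PGrp K W) = 1) :
    ∀ᶠ i in (𝒰 : Filter I), (s i : PGrp (k i) (V i)) = 1 := by
  by_contra hn
  rw [← Ultrafilter.eventually_not] at hn
  have h0 : ((1 : W ≃ₗ[K] W) : PGrp K W) = (E s : PGrp K W) := by rw [h]; rfl
  obtain ⟨C, hC⟩ := (mk_eq_iff _ _).1 h0
  obtain ⟨c, rfl⟩ := hφs C
  have h1 : ∀ i, ∃ v : V i, (s i : PGrp (k i) (V i)) ≠ 1 → s i v ≠ c i • v := by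
    intro i
    by_cases h2 : (s i : PGrp (k i) (V i)) = 1
    · exact ⟨0, fun h3 => absurd h2 h3⟩
    · by_contra h3
      push Not at h3
      apply h2
      symm
      have h4 : ((1 : V i ≃ₗ[k i] V i) : PGrp (k i) (V i)) = (s i : PGrp (k i) (V i)) :=
        (mk_eq_iff _ _).2 ⟨c i, fun v => (h3 v).2⟩
      exact h4
  choose v hv using h1
  have h5 : ψ (fun i => s i (v i)) - ψ (fun i => c i • v i) = 0 := by
    rw [← hE, hs, hC]
    simp
  rw [← map_sub, hψ] at h5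
  obtain ⟨i, hi1, hi2⟩ := (h5.and hn).exists
  apply hv i hi2
  rw [Pi.sub_apply, sub_eq_zero] at hi1
  exact hi1

private theorem ultra_small (φ : (∀ i, k i) →+* K) (ψ : (∀ i, V i) →+ W)
    (E : (∀ i, V i ≃ₗ[k i] V i) →* (W ≃ₗ[K] W))
    (hψs : Function.Surjective ψ)
    (hs : ∀ (x : ∀ i, k i) (v : ∀ i, V i), ψ (fun i => x i • v i) = φ x • ψ v)
    (hE : ∀ (g : ∀ i, V i ≃ₗ[k i] V i) (v : ∀ i, V i), E g (ψ v) = ψ (fun i => g i (v i)))
    (c : ℕ) (s : ∀ i, V i ≃ₗ[k i] V i) (h : ∀ i, ∃ a : k i, SmallRank c (s i) a) :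
    ∃ a : K, SmallRank c (E s) a := by
  choose a w hw using h
  refine ⟨φ a, fun j => ψ (fun i => w i j), fun x => ?_⟩
  obtain ⟨v, rfl⟩ := hψs x
  choose b hb using fun i => hw i (v i)
  refine ⟨fun j => φ (fun i => b i j), ?_⟩
  have h1 : ∀ j, φ (fun i => b i j) • ψ (fun i => w i j) = ψ (fun i => b i j • w i j) :=
    fun j => (hs _ _).symm
  simp only [h1]
  rw [← map_sum, hE, ← hs, ← map_sub]
  congr 1
  funext i
  rw [Pi.sub_apply, hb i, Finset.sum_apply]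

end aux

theorem ultra (hG : LocFin G) [IsSimpleGroup G] (F : Subgroup G) (hF : Finite F) (c : ℕ)
    (h : ∀ M : Subgroup G, Finite M → F ≤ M →
      ∃ (k : Type) (_ : Field k) (V : Type) (_ : AddCommGroup V) (_ : Module k V)
        (p : M →* PGrp k V), (∃ f : M, (f : G) ∈ F ∧ p f ≠ 1) ∧
        ∀ f : M, (f : G) ∈ F → ∃ (g : V ≃ₗ[k] V) (a : k), p f = (g : PGrp k V) ∧
          SmallRank c g a) :
    ∃ (k : Type u) (_ : Field k) (V : Type u) (_ : AddCommGroup V) (_ : Module k V)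
      (p : G →* PGrp k V), Function.Injective p ∧
      ∀ f ∈ F, ∃ (g : V ≃ₗ[k] V) (a : k), p f = (g : PGrp k V) ∧ SmallRank c g a := by
  classical
  let I : Type u := {M : Subgroup G // Finite M ∧ F ≤ M}
  have hjoin : ∀ (A B : Subgroup G), Finite A → Finite B →
      Finite (Subgroup.closure ((A : Set G) ∪ (B : Set G))) := by
    intro A B hA hB
    have hfin : ((A : Set G) ∪ (B : Set G)).Finite :=
      (Set.toFinite (A : Set G)).union (Set.toFinite (B : Set G))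
    have := hG hfin.toFinset
    rwa [hfin.coe_toFinset] at this
  haveI hne : Nonempty I := ⟨⟨F, hF, le_rfl⟩⟩
  haveI hdir : IsDirectedOrder I := by
    refine ⟨fun A B => ?_⟩
    refine ⟨⟨Subgroup.closure ((A.1 : Set G) ∪ (B.1 : Set G)), hjoin _ _ A.2.1 B.2.1, ?_⟩, ?_, ?_⟩
    · exact A.2.2.trans fun x hx => Subgroup.subset_closure (Or.inl hx)
    · exact fun x hx => Subgroup.subset_closure (Or.inl hx)
    · exact fun x hx => Subgroup.subset_closure (Or.inr hx)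
  haveI hbot : (Filter.atTop : Filter I).NeBot := Filter.atTop_neBot
  let 𝒰 : Ultrafilter I := Ultrafilter.of Filter.atTop
  have hU : (𝒰 : Filter I) ≤ Filter.atTop := Ultrafilter.of_le _
  have hmem : ∀ x : G, ∀ᶠ i : I in (𝒰 : Filter I), x ∈ i.1 := by
    intro x
    apply hU
    have hZ : Finite (Subgroup.zpowers x) := by
      have := hG {x}
      rwa [Finset.coe_singleton, ← Subgroup.zpowers_eq_closure] at this
    let M0 : I := ⟨Subgroup.closure ((F : Set G) ∪ (Subgroup.zpowers x : Set G)),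
      hjoin _ _ hF hZ, fun y hy => Subgroup.subset_closure (Or.inl hy)⟩
    filter_upwards [Filter.eventually_ge_atTop M0] with i hi
    exact hi (Subgroup.subset_closure (Or.inr (Subgroup.mem_zpowers x)))
  have h' : ∀ i : I, ∃ (k : Type) (_ : Field k) (V : Type) (_ : AddCommGroup V) (_ : Module k V)
        (p : i.1 →* PGrp k V), (∃ f : i.1, (f : G) ∈ F ∧ p f ≠ 1) ∧
        ∀ f : i.1, (f : G) ∈ F → ∃ (g : V ≃ₗ[k] V) (a : k), p f = (g : PGrp k V) ∧
          SmallRank c g a := fun i => h i.1 i.2.1 i.2.2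
  choose k ik V iV iM p hp1 hp2 using h'
  have hlift : ∀ (x : G) (i : I), ∃ g : V i ≃ₗ[k i] V i,
      (∀ hx : x ∈ i.1, p i ⟨x, hx⟩ = (g : PGrp (k i) (V i))) ∧
      (x ∈ F → ∃ a, SmallRank c g a) := by
    intro x i
    by_cases hx : x ∈ F
    · obtain ⟨g, a, h1, h2⟩ := hp2 i ⟨x, i.2.2 hx⟩ hx
      exact ⟨g, fun _ => h1, fun _ => ⟨a, h2⟩⟩
    · by_cases hx' : x ∈ i.1
      · obtain ⟨g, hg⟩ := QuotientGroup.mk_surjective (p i ⟨x, hx'⟩)
        exact ⟨g, fun _ => hg.symm, fun h3 => absurd h3 hx⟩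
      · exact ⟨1, fun h3 => absurd h3 hx', fun h3 => absurd h3 hx⟩
  choose g hg1 hg2 using hlift
  obtain ⟨K, iK, W, iW, iKW, φ, ψ, E, hφs, hψs, hφ, hψ, hs, hE⟩ := ultra_lin 𝒰 k V
  let P : G →* PGrp K W :=
    { toFun := fun x => (E (g x) : PGrp K W)
      map_one' := by
        have h1 : (E (g 1) : PGrp K W) = (E 1 : PGrp K W) := by
          apply ultra_eq 𝒰 φ ψ E hψs hψ hs hE
          refine Filter.Eventually.of_forall fun i => ?_
          rw [← hg1 1 i (one_mem _)]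
          have : (⟨1, one_mem _⟩ : i.1) = 1 := rfl
          rw [this, map_one]
          rfl
        rw [h1, map_one]
        rfl
      map_mul' := by
        intro x y
        have h1 : (E (g (x * y)) : PGrp K W) = (E (g x * g y) : PGrp K W) := by
          apply ultra_eq 𝒰 φ ψ E hψs hψ hs hE
          filter_upwards [hmem x, hmem y] with i hx hy
          rw [← hg1 (x * y) i (mul_mem hx hy)]
          have h2 : (⟨x * y, mul_mem hx hy⟩ : i.1) = ⟨x, hx⟩ * ⟨y, hy⟩ := rfl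
          rw [h2, map_mul, hg1 x i hx, hg1 y i hy]
          rfl
        rw [h1, map_mul]
        rfl }
  refine ⟨K, iK, W, iW, iKW, P, ?_, ?_⟩
  · rw [← MonoidHom.ker_eq_bot_iff]
    rcases (MonoidHom.normal_ker P).eq_bot_or_eq_top with h1 | h1
    · exact h1
    · exfalso
      have h2 : ∀ f : F, ∀ᶠ i in (𝒰 : Filter I), (g f i : PGrp (k i) (V i)) = 1 := by
        intro f
        apply ultra_one 𝒰 φ ψ E hφs hψ hs hE
        have h3 : (f : G) ∈ P.ker := by rw [h1]; exact Subgroup.mem_top _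
        exact h3
      have h3 : ∀ᶠ i in (𝒰 : Filter I), ∀ f : F, (g f i : PGrp (k i) (V i)) = 1 :=
        Filter.eventually_all.2 h2
      obtain ⟨i, hi⟩ := h3.exists
      obtain ⟨f, hf, hf'⟩ := hp1 i
      apply hf'
      rw [← hi ⟨f, hf⟩]
      exact hg1 f i f.2
  · intro f hf
    obtain ⟨a, ha⟩ := ultra_small φ ψ E hψs hs hE c (g f) fun i => hg2 f i hf
    exact ⟨E (g f), a, rfl, ha⟩

end H49KB
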