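import Pool.Agent.H49.KA.Base
import Pool.Agent.H49.KB.Defs
import Pool.Agent.H49.KB.U2
import Pool.Agent.H49.KB.U3

namespace H49KB

open H49KA

universe u v w

variable {G : Type u} [Group G]

theorem big_rank (hG : LocFin G) [IsSimpleGroup G] (hn : ¬ Finitary G) (F : Subgroup G)
    (hF : Finite F) (c : ℕ) :
    ∃ M : Subgroup G, Finite M ∧ F ≤ M ∧
      ∀ (k : Type) [Field k] (V : Type) [AddCommGroup V] [Module k V] (p : M →* PGrp k V),
        (∃ f : M, (f : G) ∈ F ∧ p f ≠ 1) →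
        ∃ f : M, (f : G) ∈ F ∧ ∀ (g : V ≃ₗ[k] V) (a : k), p f = (g : PGrp k V) →
          ¬ SmallRank c g a := by
  by_contra hcon
  push Not at hcon
  have h : ∀ M : Subgroup G, Finite M → F ≤ M →
      ∃ (k : Type) (_ : Field k) (V : Type) (_ : AddCommGroup V) (_ : Module k V)
        (p : M →* PGrp k V), (∃ f : M, (f : G) ∈ F ∧ p f ≠ 1) ∧
        ∀ f : M, (f : G) ∈ F → ∃ (g : V ≃ₗ[k] V) (a : k), p f = (g : PGrp k V) ∧
          SmallRank c g a := by
    intro M hM hFM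
    obtain ⟨k, ik, V, iV, iM, p, hf, hp⟩ := hcon M hM hFM
    exact ⟨k, ik, V, iV, iM, p, hf, hp⟩
  obtain ⟨k, ik, V, iV, iM, p, hinj, hp⟩ := ultra hG F hF c h
  obtain ⟨k', ik', V', iV', iM', p', ⟨f, hf, hf1⟩, -⟩ := h F hF le_rfl
  obtain ⟨g, a, hg, hs⟩ := hp f hf
  exact hn (finitary_of_proj k V p hinj f (fun h1 => hf1 (by
    have : f = 1 := Subtype.ext h1
    rw [this, map_one])) c g a hg hs)

end H49KB
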