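import Pool.Agent.H49.KA.Base

/-!
Definitions for MP_784abc_al, second part: finitary groups, classical groups over finite
fields, and local systems whose tops are alternating, classical or linear of bounded degree.
-/

namespace H49KB

open H49KA

universe u v w

/-- `G` is a finitary linear group: it has a faithful representation in which every element
differs from the identity by a map of finite rank -/
def Finitary (G : Type u) [Group G] : Prop :=
  ∃ (k : Type u) (_ : Field k) (V : Type u) (_ : AddCommGroup V) (_ : Module k V)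
    (ρ : G →* Module.End k V), Function.Injective ρ ∧
      ∀ g : G, FiniteDimensional k (LinearMap.range (ρ g - 1))

section lin

variable (k : Type v) [Field k] (V : Type w) [AddCommGroup V] [Module k V]

/-- the group of scalar maps of `V` -/
def Scal : Subgroup (V ≃ₗ[k] V) where
  carrier := {g | ∃ c : k, ∀ v : V, g v = c • v}
  mul_mem' := by
    rintro a b ⟨c, hc⟩ ⟨d, hd⟩
    exact ⟨c * d, fun v => by rw [LinearEquiv.mul_apply, hd, map_smul, hc, smul_smul, mul_comm]⟩
  one_mem' := ⟨1, fun v => by simp⟩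
  inv_mem' := by
    rintro a ⟨c, hc⟩
    by_cases h : c = 0
    · refine ⟨0, fun v => ?_⟩
      have h1 : a (a⁻¹ v) = v := by
        rw [← LinearEquiv.mul_apply, mul_inv_cancel]; rfl
      rw [hc, h, zero_smul] at h1
      rw [← h1]; simp
    · refine ⟨c⁻¹, fun v => ?_⟩
      have h1 : a (a⁻¹ v) = v := by
        rw [← LinearEquiv.mul_apply, mul_inv_cancel]; rfl
      rw [hc] at h1
      rw [← h1, smul_smul, inv_mul_cancel₀ h, one_smul, h1]

instance : (Scal k V).Normal where
  conj_mem := by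
    rintro a ⟨c, hc⟩ g
    refine ⟨c, fun v => ?_⟩
    have h1 : g (g⁻¹ v) = v := by
      rw [← LinearEquiv.mul_apply, mul_inv_cancel]; rfl
    rw [LinearEquiv.mul_apply, LinearEquiv.mul_apply, hc, map_smul, h1]

/-- the projective general linear group of `V` -/
abbrev PGrp : Type w := (V ≃ₗ[k] V) ⧸ Scal k V

variable {k V}

/-- `Γ` is the special linear group -/
def IsSL (Γ : Subgroup (V ≃ₗ[k] V)) : Prop :=
  ∀ g : V ≃ₗ[k] V, g ∈ Γ ↔ LinearMap.det (g : V →ₗ[k] V) = 1

/-- `Γ` is the symplectic group of a nondegenerate alternating form -/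
def IsSp (Γ : Subgroup (V ≃ₗ[k] V)) : Prop :=
  ∃ B : V →ₗ[k] V →ₗ[k] k, (∀ x, B x x = 0) ∧ (∀ x, (∀ y, B x y = 0) → x = 0) ∧
    ∀ g : V ≃ₗ[k] V, g ∈ Γ ↔ ∀ x y, B (g x) (g y) = B x y

/-- `Γ` is the special unitary group of a nondegenerate hermitian form -/
def IsSU (Γ : Subgroup (V ≃ₗ[k] V)) : Prop :=
  ∃ (σ : k →+* k) (h : V →ₗ[k] V →ₛₗ[σ] k), (∃ a, σ a ≠ a) ∧ (∀ a, σ (σ a) = a) ∧
    (∀ x y, h y x = σ (h x y)) ∧ (∀ x, (∀ y, h x y = 0) → x = 0) ∧
    ∀ g : V ≃ₗ[k] V, g ∈ Γ ↔ LinearMap.det (g : V →ₗ[k] V) = 1 ∧ ∀ x y, h (g x) (g y) = h x y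

/-- the isometry group of a quadratic form -/
def OGrp (Q : QuadraticForm k V) : Subgroup (V ≃ₗ[k] V) where
  carrier := {g | ∀ x, Q (g x) = Q x}
  mul_mem' := by
    intro a b ha hb x
    rw [LinearEquiv.mul_apply, ha, hb]
  one_mem' := fun x => rfl
  inv_mem' := by
    intro a ha x
    have h1 : a (a⁻¹ x) = x := by
      rw [← LinearEquiv.mul_apply, mul_inv_cancel]; rfl
    rw [← ha (a⁻¹ x), h1]

/-- `Γ` is the commutator subgroup of the isometry group of a quadratic form whose polar
form is nondegenerate -/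
def IsOm (Γ : Subgroup (V ≃ₗ[k] V)) : Prop :=
  ∃ Q : QuadraticForm k V, (∀ x, (∀ y, QuadraticMap.polar Q x y = 0) → x = 0) ∧
    Γ = ⁅OGrp Q, OGrp Q⁆

/-- the classical groups -/
def Classical (Γ : Subgroup (V ≃ₗ[k] V)) : Prop :=
  IsSL Γ ∨ IsSp Γ ∨ IsSU Γ ∨ IsOm Γ

end lin

variable {G : Type u} [Group G]

/-- `T / C` is isomorphic to the quotient of a classical group over a finite field by its
subgroup of scalars -/
def ClassSec (T C : Subgroup G) : Prop :=
  ∃ (k : Type) (_ : Field k) (_ : Finite k) (V : Type) (_ : AddCommGroup V) (_ : Module k V)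
    (_ : FiniteDimensional k V) (Γ : Subgroup (V ≃ₗ[k] V)) (p : T →* PGrp k V),
    Classical Γ ∧ (∀ t : T, p t = 1 ↔ (t : G) ∈ C) ∧
      p.range = Γ.map (QuotientGroup.mk' (Scal k V))

/-- `T / C` is isomorphic to a group of projective linear maps of degree at most `d` over
some field -/
def LinSec (d : ℕ) (T C : Subgroup G) : Prop :=
  ∃ (k : Type) (_ : Field k) (V : Type) (_ : AddCommGroup V) (_ : Module k V)
    (_ : FiniteDimensional k V) (p : T →* PGrp k V), Module.finrank k V ≤ d ∧
    ∀ t : T, p t = 1 ↔ (t : G) ∈ C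

/-- every almost simple quotient `X / C` of a perfect normal subgroup `X` of a member has
alternating socle, or is simple and classical over a finite field, or is simple and
projectively linear of degree at most `d` -/
def Tops (d : ℕ) (𝓛 : Set (Subgroup G)) : Prop :=
  ∀ K ∈ 𝓛, ∀ X ≤ K, NormIn K X → ⁅X, X⁆ = X →
    ∀ T C : Subgroup G, AlmostSimpleSec X T C →
      AltSec T C ∨ (T = X ∧ (ClassSec X C ∨ LinSec d X C))

end H49KB
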