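import Pool.Agent.H49.KB.Defs

namespace H49KB

open H49KA

universe u v w

variable {k : Type} [Field k] [Finite k] {V : Type} [AddCommGroup V] [Module k V]
  [FiniteDimensional k V]

open MvPolynomial in
theorem chev_warn (A : Type*) [AddCommGroup A] [Module k A] [FiniteDimensional k A]
    {ι : Type*} [Finite ι] (Q : ι → QuadraticForm k A)
    (h : 2 * Nat.card ι < Module.finrank k A) : ∃ v : A, v ≠ 0 ∧ ∀ i, Q i v = 0 := by
  classical
  cases nonempty_fintype k
  cases nonempty_fintype ι
  obtain ⟨p, hp⟩ := CharP.exists k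
  have hpp : p.Prime := CharP.char_is_prime k p
  set n := Module.finrank k A with hn
  let b : Module.Basis (Fin n) k A := Module.finBasis k A
  let f : ι → MvPolynomial (Fin n) k := fun i =>
    ∑ s, ∑ t, C ((Q i).toBilin b (b s) (b t)) * (X s * X t)
  have heval : ∀ (x : Fin n → k) (i : ι), eval x (f i) = Q i (∑ s, x s • b s) := by
    intro x i
    have h1 : Q i (∑ s, x s • b s) =
        ((Q i).toBilin b).toQuadraticMap (∑ s, x s • b s) := by
      rw [QuadraticMap.toQuadraticMap_toBilin]
    rw [h1, LinearMap.BilinMap.toQuadraticMap_apply]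
    simp only [f, map_sum, map_mul, eval_C, eval_X, LinearMap.sum_apply, map_smul,
      LinearMap.smul_apply, smul_eq_mul]
    rw [Finset.sum_comm]
    refine Finset.sum_congr rfl fun s _ => ?_
    rw [Finset.mul_sum]
    refine Finset.sum_congr rfl fun t _ => ?_
    ring
  have hdeg : ∀ i, (f i).totalDegree ≤ 2 := by
    intro i
    refine totalDegree_finsetSum_le fun s _ => totalDegree_finsetSum_le fun t _ => ?_
    refine (totalDegree_mul _ _).trans ?_
    rw [totalDegree_C, zero_add]
    refine (totalDegree_mul _ _).trans ?_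
    rw [totalDegree_X, totalDegree_X]
  have hsum : ∑ i, (f i).totalDegree < Fintype.card (Fin n) := by
    rw [Fintype.card_fin]
    refine lt_of_le_of_lt (Finset.sum_le_sum fun i _ => hdeg i) ?_
    rw [Finset.sum_const, Finset.card_univ, smul_eq_mul, ← Nat.card_eq_fintype_card, mul_comm]
    exact h
  have hdvd := char_dvd_card_solutions_of_fintype_sum_lt p hsum
  have h0 : ∀ i, eval (0 : Fin n → k) (f i) = 0 := by
    intro i
    rw [heval]
    simp
  have hcard : 1 < Fintype.card {x : Fin n → k // ∀ i, eval x (f i) = 0} := by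
    have h1 : 0 < Fintype.card {x : Fin n → k // ∀ i, eval x (f i) = 0} :=
      Fintype.card_pos_iff.2 ⟨⟨0, h0⟩⟩
    exact lt_of_lt_of_le hpp.one_lt (Nat.le_of_dvd h1 hdvd)
  obtain ⟨⟨x, hx⟩, hne⟩ := Fintype.exists_ne_of_one_lt_card hcard ⟨0, h0⟩
  refine ⟨∑ s, x s • b s, ?_, fun i => ?_⟩
  · intro hv
    apply hne
    rw [Subtype.mk.injEq]
    funext s
    have h1 := Fintype.linearIndependent_iff.1 b.linearIndependent x hv s
    exact h1
  · rw [← heval]
    exact hx i

end H49KB
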