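import Pool.Agent.H49.KB.Defs
import Pool.Agent.H49.KB.CW

namespace H49KB

open H49KA

universe u v w

variable {k : Type} [Field k] [Finite k] {V : Type} [AddCommGroup V] [Module k V]
  [FiniteDimensional k V]

private lemma QP_step (Q : QuadraticForm k V) (Λ : Finset (V ≃ₗ[k] V)) (U : Submodule k V)
    (hU : 2 * (Λ.card + 1) < Module.finrank k U) :
    ∃ w ∈ U, w ≠ 0 ∧ Q w = 0 ∧ ∀ l ∈ Λ, QuadraticMap.polar Q w (l w) = 0 := by
  classical
  let B : LinearMap.BilinMap k V k := QuadraticMap.polarBilin Q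
  let F : Option Λ → QuadraticForm k U := fun o =>
    match o with
    | none => Q.comp U.subtype
    | some l => LinearMap.BilinMap.toQuadraticMap
        ((B.compl₂ ((l : V ≃ₗ[k] V) : V →ₗ[k] V)).compl₁₂ U.subtype U.subtype)
  obtain ⟨x, hx0, hx⟩ := chev_warn (k := k) U F (by
    rw [Nat.card_eq_fintype_card, Fintype.card_option, Fintype.card_coe]
    exact hU)
  refine ⟨x, x.2, fun h => hx0 (Subtype.ext h), ?_, ?_⟩
  · exact hx none
  · intro l hl
    exact hx (some ⟨l, hl⟩)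

/-- totally singular pairs -/
theorem quad_pair (Q : QuadraticForm k V) (Λ : Finset (V ≃ₗ[k] V)) (A : Submodule k V)
    (hA : Module.finrank k A = 4 * Λ.card + 5) :
    ∃ v ∈ A, ∃ w ∈ A, LinearIndependent k ![v, w] ∧ Q v = 0 ∧ Q w = 0 ∧
      QuadraticMap.polar Q v w = 0 ∧ ∀ l ∈ Λ, QuadraticMap.polar Q v (l v) = 0 ∧
        QuadraticMap.polar Q v (l w) = 0 ∧ QuadraticMap.polar Q w (l v) = 0 ∧
        QuadraticMap.polar Q w (l w) = 0 := by
  classical
  obtain ⟨v, hvA, hv0, hQv, hv⟩ := QP_step Q Λ A (by omega)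
  let B : LinearMap.BilinMap k V k := QuadraticMap.polarBilin Q
  obtain ⟨φ, hφ⟩ : ∃ φ : Module.Dual k V, φ v ≠ 0 := by
    by_contra hcon
    push Not at hcon
    exact hv0 ((Module.forall_dual_apply_eq_zero_iff k v).1 hcon)
  let T : V →ₗ[k] (Option (Option (Λ ⊕ Λ)) → k) := LinearMap.pi fun o =>
    match o with
    | none => φ
    | some none => B v
    | some (some (Sum.inl l)) => (B v).comp ((l : V ≃ₗ[k] V) : V →ₗ[k] V)
    | some (some (Sum.inr l)) => B.flip ((l : V ≃ₗ[k] V) v)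
  let T' : A →ₗ[k] (Option (Option (Λ ⊕ Λ)) → k) := T.comp A.subtype
  have h1 := T'.finrank_range_add_finrank_ker
  have h2 : Module.finrank k (LinearMap.range T') ≤ 2 * Λ.card + 2 := by
    refine (Submodule.finrank_le _).trans_eq ?_
    rw [Module.finrank_fintype_fun_eq_card, Fintype.card_option, Fintype.card_option,
      Fintype.card_sum, Fintype.card_coe]
    omega
  let U : Submodule k V := (LinearMap.ker T').map A.subtype
  have h3 : Module.finrank k U = Module.finrank k (LinearMap.ker T') :=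
    Submodule.finrank_map_subtype_eq A _
  obtain ⟨w, hwU, hw0, hQw, hw⟩ := QP_step Q Λ U (by omega)
  obtain ⟨⟨w', hw'A⟩, hw'K, rfl⟩ := hwU
  simp only [Submodule.subtype_apply] at hw0 hQw hw ⊢
  have hT : T w' = 0 := hw'K
  have hφw : φ w' = 0 := congrFun hT none
  have hBvw : QuadraticMap.polar Q v w' = 0 := congrFun hT (some none)
  have hBl1 : ∀ l ∈ Λ, QuadraticMap.polar Q v (l w') = 0 := fun l hl =>
    congrFun hT (some (some (Sum.inl ⟨l, hl⟩)))
  have hBl2 : ∀ l ∈ Λ, QuadraticMap.polar Q w' (l v) = 0 := fun l hl =>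
    congrFun hT (some (some (Sum.inr ⟨l, hl⟩)))
  refine ⟨v, hvA, w', hw'A, ?_, hQv, hQw, hBvw, fun l hl => ⟨hv l hl, hBl1 l hl, hBl2 l hl,
    hw l hl⟩⟩
  rw [LinearIndependent.pair_iff]
  intro s t hst
  have h4 := congrArg φ hst
  rw [map_add, map_smul, map_smul, hφw, smul_zero, add_zero, map_zero, smul_eq_mul,
    mul_eq_zero] at h4
  have hs : s = 0 := h4.resolve_right hφ
  refine ⟨hs, ?_⟩
  rw [hs, zero_smul, zero_add, smul_eq_zero] at hst
  exact hst.resolve_right hw0

end H49KB
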