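import Pool.Agent.H49.KB.Defs

namespace H49KB

open H49KA

universe u v w

variable {k : Type} [Field k] [Finite k] {V : Type} [AddCommGroup V] [Module k V]
  [FiniteDimensional k V]

/-- the Siegel map as a linear map -/
private def sieg (B : V →ₗ[k] V →ₗ[k] k) (v w : V) : V →ₗ[k] V :=
  LinearMap.id + (B.flip v).smulRight w - (B.flip w).smulRight v

omit [Finite k] [FiniteDimensional k V] in
private theorem sieg_apply (B : V →ₗ[k] V →ₗ[k] k) (v w y : V) :
    sieg B v w y = y + B y v • w - B y w • v := by
  simp [sieg]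

omit [Finite k] [FiniteDimensional k V] in
private theorem sieg_comp (B : V →ₗ[k] V →ₗ[k] k) (v w : V) (h1 : B v v = 0) (h2 : B w w = 0)
    (h3 : B v w = 0) (h4 : B w v = 0) (y : V) : sieg B w v (sieg B v w y) = y := by
  rw [sieg_apply B w v, sieg_apply B v w y]
  simp only [map_add, map_sub, map_smul, LinearMap.add_apply, LinearMap.sub_apply,
    LinearMap.smul_apply, smul_eq_mul, h1, h2, h3, h4]
  simp only [mul_zero, add_zero, sub_zero]
  abel

theorem siegel_exists (Q : QuadraticForm k V) (v w : V) (hv : Q v = 0) (hw : Q w = 0)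
    (hvw : QuadraticMap.polar Q v w = 0) :
    ∃ x : V ≃ₗ[k] V, x ∈ OGrp Q ∧ ∀ y, x y = y + QuadraticMap.polar Q y v • w -
      QuadraticMap.polar Q y w • v := by
  have h1 : QuadraticMap.polarBilin Q v v = 0 := by
    rw [QuadraticMap.polarBilin_apply_apply, QuadraticMap.polar_self, hv, smul_zero]
  have h2 : QuadraticMap.polarBilin Q w w = 0 := by
    rw [QuadraticMap.polarBilin_apply_apply, QuadraticMap.polar_self, hw, smul_zero]
  have h3 : QuadraticMap.polarBilin Q v w = 0 := by
    rw [QuadraticMap.polarBilin_apply_apply, hvw]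
  have h4 : QuadraticMap.polarBilin Q w v = 0 := by
    rw [QuadraticMap.polarBilin_apply_apply, QuadraticMap.polar_comm, hvw]
  refine ⟨LinearEquiv.ofLinearMap (sieg (QuadraticMap.polarBilin Q) v w)
    (sieg (QuadraticMap.polarBilin Q) w v)
    (LinearMap.ext fun y => sieg_comp (QuadraticMap.polarBilin Q) w v h2 h1 h4 h3 y)
    (LinearMap.ext fun y => sieg_comp (QuadraticMap.polarBilin Q) v w h1 h2 h3 h4 y), ?_, ?_⟩
  · intro y
    show Q (sieg (QuadraticMap.polarBilin Q) v w y) = Q y
    rw [sieg_apply, QuadraticMap.polarBilin_apply_apply, QuadraticMap.polarBilin_apply_apply,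
      add_sub_assoc, QuadraticMap.map_add Q, sub_eq_add_neg, QuadraticMap.map_add Q,
      QuadraticMap.map_neg, QuadraticMap.map_smul, QuadraticMap.map_smul, hv, hw,
      QuadraticMap.polar_add_right, QuadraticMap.polar_neg_right, QuadraticMap.polar_neg_right,
      QuadraticMap.polar_smul_right, QuadraticMap.polar_smul_right,
      QuadraticMap.polar_smul_right, QuadraticMap.polar_smul_left,
      QuadraticMap.polar_comm Q w v, hvw]
    simp only [smul_eq_mul, mul_zero, add_zero, neg_zero]
    ring
  · intro y
    show sieg (QuadraticMap.polarBilin Q) v w y = _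
    rw [sieg_apply, QuadraticMap.polarBilin_apply_apply, QuadraticMap.polarBilin_apply_apply]

end H49KB
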