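import Pool.Agent.H49.KB.Defs
import Pool.Agent.H49.KB.CW
import Pool.Agent.H49.KB.SE

namespace H49KB

open H49KA
open scoped commutatorElement

universe u v w

variable {k : Type} [Field k] [Finite k] {V : Type} [AddCommGroup V] [Module k V]
  [FiniteDimensional k V]

/-- the vector `w'` -/
private theorem sc_vec (Q : QuadraticForm k V) (hdim : 7 ≤ Module.finrank k V) (v w : V)
    (hv : Q v = 0) (hw : Q w = 0) (hvw : QuadraticMap.polar Q v w = 0) :
    ∃ w' : V, Q w' = 0 ∧ QuadraticMap.polar Q w' v = 0 ∧ QuadraticMap.polar Q w' w = 0 ∧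
      ∀ α β : k, w' ≠ α • v + β • w := by
  set B := QuadraticMap.polarBilin Q with hB
  set W : Submodule k V := LinearMap.ker ((B v).prod (B w)) with hW
  have hmem : ∀ y, y ∈ W ↔ QuadraticMap.polar Q v y = 0 ∧ QuadraticMap.polar Q w y = 0 := by
    intro y
    rw [hW, LinearMap.mem_ker]
    constructor
    · intro h
      exact ⟨congrArg Prod.fst h, congrArg Prod.snd h⟩
    · intro h
      exact Prod.ext h.1 h.2
  have hWdim : 5 ≤ Module.finrank k W := by
    have h1 := LinearMap.finrank_range_add_finrank_ker ((B v).prod (B w))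
    have h2 := Submodule.finrank_le (LinearMap.range ((B v).prod (B w)))
    have h3 : Module.finrank k (k × k) = 2 := by
      rw [Module.finrank_prod, Module.finrank_self]
    rw [h3] at h2
    have h4 : Module.finrank k (LinearMap.ker ((B v).prod (B w))) = Module.finrank k W := rfl
    omega
  have hvW : v ∈ W := by
    rw [hmem]
    refine ⟨?_, ?_⟩
    · rw [QuadraticMap.polar_self, hv, smul_zero]
    · rw [QuadraticMap.polar_comm, hvw]
  have hwW : w ∈ W := by
    rw [hmem]
    refine ⟨hvw, ?_⟩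
    rw [QuadraticMap.polar_self, hw, smul_zero]
  set v' : W := ⟨v, hvW⟩
  set w' : W := ⟨w, hwW⟩
  set S : Submodule k W := Submodule.span k {v', w'} with hS
  have hSdim : Module.finrank k S ≤ 2 := by
    classical
    have h1 := finrank_span_finset_le_card (R := k) ({v', w'} : Finset W)
    rw [Finset.coe_insert, Finset.coe_singleton] at h1
    exact h1.trans Finset.card_le_two
  obtain ⟨C, hC⟩ := Submodule.exists_isCompl S
  have hCdim : 3 ≤ Module.finrank k C := by
    have h1 := Submodule.finrank_add_eq_of_isCompl hC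
    omega
  obtain ⟨u, hu0, hu⟩ := chev_warn (k := k) C (ι := Unit)
    (fun _ => Q.comp (W.subtype.comp C.subtype)) (by
      rw [Nat.card_unique]
      omega)
  have hu1 : Q ((u : W) : V) = 0 := hu ()
  have hu2 := (hmem ((u : W) : V)).1 (u : W).2
  refine ⟨((u : W) : V), hu1, ?_, ?_, ?_⟩
  · rw [QuadraticMap.polar_comm]; exact hu2.1
  · rw [QuadraticMap.polar_comm]; exact hu2.2
  · intro α β h
    apply hu0
    have h1 : (u : W) = α • v' + β • w' := Subtype.ext h
    have h2 : (u : W) ∈ S := by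
      rw [h1]
      exact Submodule.add_mem _ (Submodule.smul_mem _ _ (Submodule.subset_span (by simp)))
        (Submodule.smul_mem _ _ (Submodule.subset_span (by simp)))
    have h3 : (u : W) ∈ S ⊓ C := ⟨h2, u.2⟩
    rw [hC.inf_eq_bot] at h3
    exact Subtype.ext h3

omit [Finite k] [FiniteDimensional k V] in
/-- the vector `z` -/
private theorem sc_vec2 (Q : QuadraticForm k V)
    (hQ : ∀ x, (∀ y, QuadraticMap.polar Q x y = 0) → x = 0) (v w w' : V)
    (hw' : Q w' = 0) (h1 : QuadraticMap.polar Q w' v = 0) (h2 : QuadraticMap.polar Q w' w = 0)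
    (h3 : ∀ α β : k, w' ≠ α • v + β • w) :
    ∃ z : V, Q z = 0 ∧ QuadraticMap.polar Q z v = 0 ∧ QuadraticMap.polar Q z w = 0 ∧
      QuadraticMap.polar Q w' z = -1 := by
  set B := QuadraticMap.polarBilin Q with hB
  have hBp : ∀ x y, B x y = QuadraticMap.polar Q x y := fun x y => rfl
  have hex : ∃ y, QuadraticMap.polar Q v y = 0 ∧ QuadraticMap.polar Q w y = 0 ∧
      QuadraticMap.polar Q w' y ≠ 0 := by
    by_contra hcon
    push Not at hcon
    have hker : (⨅ i : Fin 2, LinearMap.ker ((![B v, B w] : Fin 2 → V →ₗ[k] k) i)) ≤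
        LinearMap.ker (B w') := by
      intro y hy
      rw [Submodule.mem_iInf] at hy
      have e0 := hy 0
      have e1 := hy 1
      rw [LinearMap.mem_ker] at e0 e1 ⊢
      exact hcon y e0 e1
    have hspan := mem_span_of_iInf_ker_le_ker hker
    rw [Submodule.mem_span_range_iff_exists_fun] at hspan
    obtain ⟨c, hc⟩ := hspan
    rw [Fin.sum_univ_two] at hc
    refine h3 (c 0) (c 1) ?_
    have h4 : w' - (c 0 • v + c 1 • w) = 0 := by
      apply hQ
      intro y
      rw [← hBp, map_sub, map_add, map_smul, map_smul, LinearMap.sub_apply]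
      have h5 : (c 0 • B v + c 1 • B w) y = B w' y := by
        have := DFunLike.congr_fun hc y
        exact this
      rw [h5, sub_self]
    exact sub_eq_zero.1 h4
  obtain ⟨y, hy1, hy2, hy3⟩ := hex
  obtain ⟨z0, hz1, hz2, hz3⟩ : ∃ z0 : V, B v z0 = 0 ∧ B w z0 = 0 ∧ B w' z0 = -1 := by
    refine ⟨(-(QuadraticMap.polar Q w' y)⁻¹) • y, ?_, ?_, ?_⟩
    · rw [map_smul, hBp, hy1, smul_zero]
    · rw [map_smul, hBp, hy2, smul_zero]
    · rw [map_smul, hBp, smul_eq_mul, neg_mul, inv_mul_cancel₀ hy3]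
  have hww : B w' w' = 0 := by
    rw [hBp, QuadraticMap.polar_self, hw', smul_zero]
  have hsym : ∀ x y, B x y = B y x := fun x y => by
    rw [hBp, hBp, QuadraticMap.polar_comm]
  refine ⟨z0 + Q z0 • w', ?_, ?_, ?_, ?_⟩
  · rw [QuadraticMap.map_add Q, QuadraticMap.map_smul, hw', smul_zero, add_zero, ← hBp,
      map_smul, hsym, hz3, smul_eq_mul]
    ring
  · rw [← hBp, map_add, map_smul, LinearMap.add_apply, LinearMap.smul_apply, hsym z0 v, hz1,
      hBp w' v, h1, smul_zero, add_zero]
  · rw [← hBp, map_add, map_smul, LinearMap.add_apply, LinearMap.smul_apply, hsym z0 w, hz2,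
      hBp w' w, h2, smul_zero, add_zero]
  · rw [← hBp, map_add, map_smul, hz3, hww, smul_zero, add_zero]

theorem siegel_comm (Q : QuadraticForm k V)
    (hQ : ∀ x, (∀ y, QuadraticMap.polar Q x y = 0) → x = 0) (hdim : 7 ≤ Module.finrank k V)
    (v w : V) (hli : LinearIndependent k ![v, w]) (hv : Q v = 0) (hw : Q w = 0)
    (hvw : QuadraticMap.polar Q v w = 0) (x : V ≃ₗ[k] V)
    (hx : ∀ y, x y = y + QuadraticMap.polar Q y v • w - QuadraticMap.polar Q y w • v) :
    x ∈ ⁅OGrp Q, OGrp Q⁆ := by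
  set B := QuadraticMap.polarBilin Q with hB
  have hBp : ∀ x y, QuadraticMap.polar Q x y = B x y := fun x y => rfl
  have hsym : ∀ x y, B x y = B y x := fun x y => by
    rw [← hBp, ← hBp, QuadraticMap.polar_comm]
  obtain ⟨w', a1, a2, a3, a4⟩ := sc_vec Q hdim v w hv hw hvw
  obtain ⟨z, b1, b2, b3, b4⟩ := sc_vec2 Q hQ v w w' a1 a2 a3 a4
  have hwz : QuadraticMap.polar Q w z = 0 := by rw [QuadraticMap.polar_comm, b3]
  have hvz : QuadraticMap.polar Q v z = 0 := by rw [QuadraticMap.polar_comm, b2]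
  have hvw' : QuadraticMap.polar Q v w' = 0 := by rw [QuadraticMap.polar_comm, a2]
  obtain ⟨g, hg, hg'⟩ := siegel_exists Q w z hw b1 hwz
  obtain ⟨h, hh, hh'⟩ := siegel_exists Q v w' hv a1 hvw'
  have hgv : g v = v := by
    rw [hg', hvw, hvz, zero_smul, zero_smul, add_zero, sub_zero]
  have hgw : g w' = w' + w := by
    rw [hg', a3, b4, zero_smul, add_zero, neg_smul, one_smul, sub_neg_eq_add]
  have hinv : ∀ a b, B (g a) (g b) = B a b := by
    intro a b
    rw [← hBp, ← hBp, QuadraticMap.polar, QuadraticMap.polar, ← map_add, hg, hg, hg]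
  have hvv : B v v = 0 := by rw [← hBp, QuadraticMap.polar_self, hv, smul_zero]
  have key : g * h * g⁻¹ = h * x := by
    refine LinearEquiv.ext fun y => ?_
    have hgi : g (g⁻¹ y) = y := by
      rw [← LinearEquiv.mul_apply, mul_inv_cancel]; rfl
    have e1 : B (g⁻¹ y) v = B y v := by
      rw [← hinv, hgi, hgv]
    have e2 : B (g⁻¹ y) w' = B y w' + B y w := by
      rw [← hinv, hgi, hgw, map_add]
    rw [LinearEquiv.mul_apply, LinearEquiv.mul_apply, LinearEquiv.mul_apply, hh', hh', hx]
    simp only [hBp] at *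
    rw [e1, e2, map_sub, map_add, map_smul, map_smul, hgi, hgv, hgw]
    have c1 : B w v = 0 := by rw [hsym, hvw]
    have c2 : B w w' = 0 := by rw [hsym, a3]
    simp only [map_add, map_sub, map_smul, LinearMap.add_apply, LinearMap.sub_apply,
      LinearMap.smul_apply, smul_eq_mul, hvv, hvw', c1, c2, mul_zero, add_zero, sub_zero,
      add_smul, smul_add]
    abel
  have hxe : x = ⁅h⁻¹, g⁆ := by
    rw [commutatorElement_def, inv_inv]
    have : h⁻¹ * g * h * g⁻¹ = h⁻¹ * (g * h * g⁻¹) := by group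
    rw [this, key]
    group
  rw [hxe]
  exact Subgroup.commutator_mem_commutator (inv_mem hh) hg

end H49KB
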