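import Pool.Agent.H49.KB.Defs
import Pool.Agent.H49.KB.QP
import Pool.Agent.H49.KB.SE
import Pool.Agent.H49.KB.SC

namespace H49KB

open H49KA

universe u v w

variable {k : Type} [Field k] [Finite k] {V : Type} [AddCommGroup V] [Module k V]
  [FiniteDimensional k V]

omit [Finite k] [FiniteDimensional k V] in
private theorem ROm_polar (Q : QuadraticForm k V) {l : V ≃ₗ[k] V} (hl : l ∈ OGrp Q) (a b : V) :
    QuadraticMap.polar Q (l a) (l b) = QuadraticMap.polar Q a b := by
  have h : ∀ x, Q (l x) = Q x := hl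
  rw [QuadraticMap.polar, QuadraticMap.polar, ← map_add, h, h, h]

omit [Finite k] [FiniteDimensional k V] in
private theorem ROm_polar_inv (Q : QuadraticForm k V) {l : V ≃ₗ[k] V} (hl : l ∈ OGrp Q) (y b : V) :
    QuadraticMap.polar Q (l⁻¹ y) b = QuadraticMap.polar Q y (l b) := by
  rw [← ROm_polar Q hl (l⁻¹ y) b]
  congr 1
  rw [← LinearEquiv.mul_apply, mul_inv_cancel]
  rfl

omit [Finite k] [FiniteDimensional k V] in
private theorem ROm_conj (Q : QuadraticForm k V) {l x : V ≃ₗ[k] V} (hl : l ∈ OGrp Q) (v w : V)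
    (hx : ∀ y, x y = y + QuadraticMap.polar Q y v • w - QuadraticMap.polar Q y w • v) (y : V) :
    (l * x * l⁻¹) y = y + QuadraticMap.polar Q y (l v) • l w -
      QuadraticMap.polar Q y (l w) • l v := by
  rw [LinearEquiv.mul_apply, LinearEquiv.mul_apply, hx, map_sub, map_add, map_smul, map_smul,
    ROm_polar_inv Q hl, ROm_polar_inv Q hl]
  congr 2
  rw [← LinearEquiv.mul_apply, mul_inv_cancel]
  rfl

omit [Finite k] in
/-- dual vectors for a nondegenerate polar form -/
private theorem ROm_dual (Q : QuadraticForm k V)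
    (hQ : ∀ x, (∀ y, QuadraticMap.polar Q x y = 0) → x = 0) (φ : Module.Dual k V) :
    ∃ y, ∀ u, QuadraticMap.polar Q y u = φ u := by
  have hinj : Function.Injective (QuadraticMap.polarBilin Q) := by
    rw [injective_iff_map_eq_zero]
    intro x hx
    exact hQ x fun y => LinearMap.congr_fun hx y
  have hsurj : Function.Surjective (QuadraticMap.polarBilin Q) :=
    (LinearMap.injective_iff_surjective_of_finrank_eq_finrank
      (Subspace.dual_finrank_eq (K := k) (V := V)).symm).1 hinj
  obtain ⟨y, hy⟩ := hsurj φ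
  exact ⟨y, fun u => LinearMap.congr_fun hy u⟩

theorem root_Om (Γ : Subgroup (V ≃ₗ[k] V)) (hΓ : IsOm Γ) (Λ : Finset (V ≃ₗ[k] V))
    (hΛ : ∀ l ∈ Λ, l ∈ Γ) (f : V ≃ₗ[k] V) (hf : f ∈ Λ) (A : Submodule k V)
    (hA : Module.finrank k A = 4 * Λ.card + 5) (hd : Disjoint A (A.map (f : V →ₗ[k] V))) :
    ∃ x ∈ Γ, (∀ l ∈ Λ, Commute x (l * x * l⁻¹)) ∧ f * x * f⁻¹ * x⁻¹ ∉ Scal k V := by
  obtain ⟨Q, hQ, rfl⟩ := hΓ
  have hle : ⁅OGrp Q, OGrp Q⁆ ≤ OGrp Q := by
    rw [Subgroup.commutator_le]
    intro a ha b hb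
    exact mul_mem (mul_mem (mul_mem ha hb) (inv_mem ha)) (inv_mem hb)
  have hΛO : ∀ l ∈ Λ, l ∈ OGrp Q := fun l hl => hle (hΛ l hl)
  obtain ⟨v, hvA, w, hwA, hli, hQv, hQw, hvw, hl4⟩ := quad_pair Q Λ A hA
  obtain ⟨x, hxO, hx⟩ := siegel_exists Q v w hQv hQw hvw
  have hcard : 0 < Λ.card := Finset.card_pos.2 ⟨f, hf⟩
  have hdim : 7 ≤ Module.finrank k V := by
    have := Submodule.finrank_le A
    omega
  refine ⟨x, siegel_comm Q hQ hdim v w hli hQv hQw hvw x hx, ?_, ?_⟩
  · intro l hl
    have hlO := hΛO l hl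
    obtain ⟨h1, h2, h3, h4⟩ := hl4 l hl
    have h1' := (QuadraticMap.polar_comm Q v (l v)).symm.trans h1
    have h2' := (QuadraticMap.polar_comm Q v (l w)).symm.trans h2
    have h3' := (QuadraticMap.polar_comm Q w (l v)).symm.trans h3
    have h4' := (QuadraticMap.polar_comm Q w (l w)).symm.trans h4
    have hc := ROm_conj Q hlO v w hx
    refine LinearEquiv.ext fun y => ?_
    show (x * (l * x * l⁻¹)) y = ((l * x * l⁻¹) * x) y
    rw [LinearEquiv.mul_apply x, LinearEquiv.mul_apply (l * x * l⁻¹) x]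
    rw [hx ((l * x * l⁻¹) y), hc (x y), hc y, hx y]
    simp only [sub_eq_add_neg, QuadraticMap.polar_add_left, QuadraticMap.polar_neg_left,
      QuadraticMap.polar_smul_left, h1, h2, h3, h4, h1', h2', h3', h4', smul_eq_mul, mul_zero,
      neg_zero, add_zero]
    abel
  · rintro ⟨c, hc⟩
    have hfO := hΛO f hf
    have hcf := ROm_conj Q hfO v w hx
    have key : ∀ y, y + QuadraticMap.polar Q y (f v) • f w - QuadraticMap.polar Q y (f w) • f v =
        c • (y + QuadraticMap.polar Q y v • w - QuadraticMap.polar Q y w • v) := by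
      intro y
      rw [← hcf y, ← hx y, ← hc (x y), LinearEquiv.mul_apply (f * x * f⁻¹) x⁻¹]
      congr 1
      rw [← LinearEquiv.mul_apply x⁻¹ x, inv_mul_cancel]
      rfl
    rw [LinearIndependent.pair_iff] at hli
    have hnot : f v ∉ Submodule.span k ({v, w, f w} : Set V) := by
      intro hmem
      rw [Submodule.mem_span_insert] at hmem
      obtain ⟨a, z, hz, hfv⟩ := hmem
      rw [Submodule.mem_span_insert] at hz
      obtain ⟨b, z', hz', rfl⟩ := hz
      rw [Submodule.mem_span_singleton] at hz'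
      obtain ⟨d, rfl⟩ := hz'
      have h1 : f (v - d • w) = a • v + b • w := by
        rw [map_sub, map_smul, hfv]
        abel
      have h2 : f (v - d • w) ∈ A := by
        rw [h1]
        exact A.add_mem (A.smul_mem _ hvA) (A.smul_mem _ hwA)
      have h3 : f (v - d • w) ∈ A.map (f : V →ₗ[k] V) :=
        Submodule.mem_map_of_mem (A.sub_mem hvA (A.smul_mem _ hwA))
      have h4 : f (v - d • w) = 0 := Submodule.disjoint_def.1 hd _ h2 h3
      have h5 : v - d • w = 0 := f.injective (h4.trans (map_zero f).symm)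
      have h6 := hli 1 (-d) (by rw [one_smul, neg_smul, ← sub_eq_add_neg]; exact h5)
      exact one_ne_zero h6.1
    obtain ⟨φ, hφ, hφ0⟩ := Submodule.exists_dual_map_eq_bot_of_notMem hnot inferInstance
    have hz : ∀ u ∈ ({v, w, f w} : Set V), φ u = 0 := by
      intro u hu
      have : φ u ∈ (Submodule.span k ({v, w, f w} : Set V)).map φ :=
        Submodule.mem_map_of_mem (Submodule.subset_span hu)
      rw [hφ0] at this
      exact (Submodule.mem_bot k).1 this
    obtain ⟨y, hy⟩ := ROm_dual Q hQ φ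
    have h1 := key y
    rw [hy, hy, hy, hy, hz v (by simp), hz w (by simp), hz (f w) (by simp)] at h1
    simp only [zero_smul, add_zero, sub_zero] at h1
    have h2 := congrArg (fun u => QuadraticMap.polar Q u (f v)) h1
    simp only [QuadraticMap.polar_add_left, QuadraticMap.polar_smul_left, hy, smul_eq_mul] at h2
    rw [ROm_polar Q hfO, QuadraticMap.polar_comm Q w v, hvw, mul_zero, add_zero] at h2
    have hc1 : c = 1 := by
      have : (c - 1) * φ (f v) = 0 := by rw [sub_mul, one_mul, ← h2, sub_self]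
      rcases mul_eq_zero.1 this with h | h
      · exact sub_eq_zero.1 h
      · exact absurd h hφ
    rw [hc1, one_smul] at h1
    have h3 : φ (f v) • f w = 0 := by simpa using h1
    rcases smul_eq_zero.1 h3 with h | h
    · exact hφ h
    · have hw0 : w = 0 := f.injective (h.trans (map_zero f).symm)
      have h6 := hli 0 1 (by rw [hw0]; simp)
      exact one_ne_zero h6.2

end H49KB
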