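import Pool.Agent.H49.KB.Defs

namespace H49KB

open H49KA

universe u v w

variable {k : Type} [Field k] [Finite k] {V : Type} [AddCommGroup V] [Module k V]
  [FiniteDimensional k V]

theorem root_SL (Γ : Subgroup (V ≃ₗ[k] V)) (hΓ : IsSL Γ) (Λ : Finset (V ≃ₗ[k] V))
    (f : V ≃ₗ[k] V) (hf : f ∈ Λ) (A : Submodule k V)
    (hA : Module.finrank k A = 4 * Λ.card + 5) (hd : Disjoint A (A.map (f : V →ₗ[k] V))) :
    ∃ x ∈ Γ, (∀ l ∈ Λ, Commute x (l * x * l⁻¹)) ∧ f * x * f⁻¹ * x⁻¹ ∉ Scal k V := by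
  classical
  obtain ⟨v, hvA, hv⟩ : ∃ v ∈ A, v ≠ 0 := by
    rw [← Submodule.ne_bot_iff]
    rintro rfl
    rw [finrank_bot] at hA
    omega
  have hfv : ∀ c : k, f v ≠ c • v := by
    intro c hc
    have h1 : f v ∈ A := by
      rw [hc]
      exact A.smul_mem c hvA
    have h2 : f v ∈ A.map (f : V →ₗ[k] V) := Submodule.mem_map_of_mem hvA
    have h3 : f v = 0 := Submodule.disjoint_def.1 hd _ h1 h2
    exact hv (f.map_eq_zero_iff.1 h3)
  -- the functional
  obtain ⟨S, hS⟩ : ∃ S : Finset V, S = insert v (Λ.image (fun l => l v) ∪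
      Λ.image (fun l => l⁻¹ v)) := ⟨_, rfl⟩
  have hcard : S.card ≤ 2 * Λ.card + 1 := by
    rw [hS]
    refine (Finset.card_insert_le _ _).trans ?_
    have h1 := Finset.card_union_le (Λ.image (fun l => l v)) (Λ.image (fun l => l⁻¹ v))
    have h2 : (Λ.image (fun l : V ≃ₗ[k] V => l v)).card ≤ Λ.card := Finset.card_image_le
    have h3 : (Λ.image (fun l : V ≃ₗ[k] V => l⁻¹ v)).card ≤ Λ.card := Finset.card_image_le
    omega
  have hlt : Submodule.span k (S : Set V) < ⊤ := by
    rw [lt_top_iff_ne_top]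
    intro h1
    have h2 : Module.finrank k (Submodule.span k (S : Set V)) ≤ S.card :=
      finrank_span_finset_le_card (R := k) S
    rw [h1, finrank_top] at h2
    have h3 := Submodule.finrank_le A
    omega
  obtain ⟨φ, hφ, hle⟩ := Submodule.exists_le_ker_of_lt_top _ hlt
  have hφS : ∀ y ∈ S, φ y = 0 := fun y hy => hle (Submodule.subset_span hy)
  have hφv : φ v = 0 := hφS v (by rw [hS]; exact Finset.mem_insert_self _ _)
  have hφl : ∀ l ∈ Λ, φ (l v) = 0 := by
    intro l hl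
    apply hφS
    rw [hS]
    exact Finset.mem_insert_of_mem (Finset.mem_union_left _
      (Finset.mem_image_of_mem (fun l : V ≃ₗ[k] V => l v) hl))
  have hφl' : ∀ l ∈ Λ, φ (l⁻¹ v) = 0 := by
    intro l hl
    apply hφS
    rw [hS]
    exact Finset.mem_insert_of_mem (Finset.mem_union_right _
      (Finset.mem_image_of_mem (fun l : V ≃ₗ[k] V => l⁻¹ v) hl))
  obtain ⟨x, hx⟩ : ∃ x : V ≃ₗ[k] V, x = LinearEquiv.transvection hφv := ⟨_, rfl⟩
  have hxa : ∀ y, x y = y + φ y • v := by
    intro y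
    rw [hx]
    exact LinearEquiv.transvection.apply hφv y
  have hinv : ∀ (l : V ≃ₗ[k] V) (y : V), l (l⁻¹ y) = y := by
    intro l y
    rw [← LinearEquiv.mul_apply, mul_inv_cancel]
    rfl
  have hinv' : ∀ (l : V ≃ₗ[k] V) (y : V), l⁻¹ (l y) = y := by
    intro l y
    rw [← LinearEquiv.mul_apply, inv_mul_cancel]
    rfl
  have hconj : ∀ (l : V ≃ₗ[k] V) (y : V), (l * x * l⁻¹) y = y + φ (l⁻¹ y) • l v := by
    intro l y
    rw [LinearEquiv.mul_apply, LinearEquiv.mul_apply, hxa, map_add, map_smul, hinv]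
  refine ⟨x, ?_, fun l hl => ?_, ?_⟩
  · rw [hΓ, hx]
    change LinearMap.det (LinearMap.transvection φ v) = 1
    rw [LinearMap.transvection.det, hφv, add_zero]
  · change x * (l * x * l⁻¹) = (l * x * l⁻¹) * x
    ext y
    rw [LinearEquiv.mul_apply, LinearEquiv.mul_apply (l * x * l⁻¹), hconj, hconj, hxa, hxa,
      map_add, map_smul, hφl l hl, map_add, map_smul, map_add, map_smul, hφl' l hl]
    simp only [smul_eq_mul, mul_zero, add_zero]
    abel
  · rintro ⟨c, hc⟩
    have h1 : ∀ y, y + φ (f⁻¹ y) • f v = c • (y + φ y • v) := by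
      intro y
      have h2 := hc (x y)
      rw [LinearEquiv.mul_apply, hinv', hconj, hxa] at h2
      exact h2
    have h2 : (1 : k) = c := by
      have h3 := h1 v
      rw [hφl' f hf, hφv, zero_smul, add_zero, zero_smul, add_zero] at h3
      have h4 : (1 - c) • v = 0 := by
        rw [sub_smul, one_smul, ← h3, sub_self]
      rcases smul_eq_zero.1 h4 with h5 | h5
      · exact sub_eq_zero.1 h5
      · exact absurd h5 hv
    obtain ⟨y, hy⟩ : ∃ y, φ y ≠ 0 := by
      by_contra hcon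
      push Not at hcon
      exact hφ (LinearMap.ext hcon)
    have h3 := h1 (f y)
    rw [← h2, one_smul, hinv'] at h3
    have h4 : φ y • f v = φ (f y) • v := add_left_cancel h3
    apply hfv ((φ y)⁻¹ * φ (f y))
    rw [mul_smul, ← h4, smul_smul, inv_mul_cancel₀ hy, one_smul]

end H49KB
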