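import Pool.Agent.H49.KB.Defs
import Pool.Agent.H49.KB.CW

namespace H49KB

open H49KA

universe u v w

variable {k : Type} [Field k] [Finite k] {V : Type} [AddCommGroup V] [Module k V]
  [FiniteDimensional k V]

/-- the fixed field of an endomorphism -/
private def fixF (σ : k →+* k) : Subfield k := RingHom.eqLocusField σ (RingHom.id k)

private theorem mem_fixF (σ : k →+* k) (a : k) : a ∈ fixF σ ↔ σ a = a := Iff.rfl

private theorem tr_mem (σ : k →+* k) (hσ2 : ∀ a, σ (σ a) = a) (z : k) :
    z + σ z ∈ fixF σ := by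
  rw [mem_fixF, map_add, hσ2, add_comm]

/-- the trace form of a sesquilinear form, as a bilinear form over the fixed field -/
private def trB (σ : k →+* k) (h : V →ₗ[k] V →ₛₗ[σ] k) (hσ2 : ∀ a, σ (σ a) = a)
    (l : V ≃ₗ[k] V) (A : Submodule k V) (c : k) :
    A →ₗ[fixF σ] A →ₗ[fixF σ] (fixF σ) :=
  LinearMap.mk₂ (fixF σ)
    (fun x y => ⟨c * h (x : V) (l (y : V)) + σ (c * h (x : V) (l (y : V))), tr_mem σ hσ2 _⟩)
    (by
      intro x x' y
      apply Subtype.ext
      simp only [Submodule.coe_add, map_add, LinearMap.add_apply, mul_add, Subfield.coe_add]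
      ring)
    (by
      intro a x y
      apply Subtype.ext
      have ha : σ (a : k) = a := a.2
      have h1 : h ((a • x : A) : V) (l (y : V)) = (a : k) * h (x : V) (l (y : V)) := by
        have : ((a • x : A) : V) = (a : k) • (x : V) := rfl
        rw [this, map_smul, LinearMap.smul_apply, smul_eq_mul]
      simp only [h1, map_mul, ha, smul_eq_mul, Subfield.coe_mul]
      ring)
    (by
      intro x y y'
      apply Subtype.ext
      simp only [Submodule.coe_add, map_add, mul_add, Subfield.coe_add]
      ring)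
    (by
      intro a x y
      apply Subtype.ext
      have ha : σ (a : k) = a := a.2
      have h1 : h (x : V) (l ((a • y : A) : V)) = (a : k) * h (x : V) (l (y : V)) := by
        have : ((a • y : A) : V) = (a : k) • (y : V) := rfl
        rw [this, map_smul, LinearMap.map_smulₛₗ, smul_eq_mul, ha]
      simp only [h1, map_mul, ha, smul_eq_mul, Subfield.coe_mul]
      ring)

/-- a common zero of the functions `h v (l v)`, `l` in `Λ` -/
theorem herm_zero (σ : k →+* k) (h : V →ₗ[k] V →ₛₗ[σ] k) (hσ : ∃ a, σ a ≠ a)
    (hσ2 : ∀ a, σ (σ a) = a) (Λ : Finset (V ≃ₗ[k] V)) (A : Submodule k V)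
    (hA : 2 * Λ.card < Module.finrank k A) :
    ∃ v ∈ A, v ≠ 0 ∧ ∀ l ∈ Λ, h v (l v) = 0 := by
  classical
  obtain ⟨ξ, hξ⟩ := hσ
  have : IsScalarTower (fixF σ) k A := ⟨fun a b x => by
    apply Subtype.ext
    change ((a : k) * b) • (x : V) = (a : k) • (b • (x : V))
    rw [mul_smul]⟩
  have : FiniteDimensional (fixF σ) k := Module.Finite.of_finite
  have : FiniteDimensional (fixF σ) A := Module.Finite.trans k A
  have h2 : 2 ≤ Module.finrank (fixF σ) k := by
    have hli : LinearIndependent (fixF σ) ![(1 : k), ξ] := by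
      rw [LinearIndependent.pair_iff]
      intro s t hst
      have hst' : (s : k) + (t : k) * ξ = 0 := by
        have := hst
        rw [Subfield.smul_def, Subfield.smul_def, smul_eq_mul, smul_eq_mul, mul_one] at this
        exact this
      have hs : σ (s : k) = s := s.2
      have ht : σ (t : k) = t := t.2
      have h3 : (s : k) + (t : k) * σ ξ = 0 := by
        have := congrArg σ hst'
        rw [map_add, map_mul, hs, ht, map_zero] at this
        exact this
      have h4 : (t : k) * (σ ξ - ξ) = 0 := by
        linear_combination h3 - hst'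
      have h5 : (t : k) = 0 := by
        rcases mul_eq_zero.1 h4 with h | h
        · exact h
        · exact absurd (sub_eq_zero.1 h) hξ
      have h6 : (s : k) = 0 := by
        rw [h5, zero_mul, add_zero] at hst'
        exact hst'
      exact ⟨Subtype.ext h6, Subtype.ext h5⟩
    have := hli.fintype_card_le_finrank
    simpa using this
  have hfr : 2 * Module.finrank k A ≤ Module.finrank (fixF σ) A := by
    rw [← Module.finrank_mul_finrank (fixF σ) k A]
    exact Nat.mul_le_mul_right _ h2
  let Q : (Λ × Bool) → QuadraticForm (fixF σ) A := fun p =>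
    LinearMap.BilinMap.toQuadraticMap
      (trB σ h hσ2 (p.1 : V ≃ₗ[k] V) A (if p.2 then ξ else 1))
  have hcard : 2 * Nat.card (Λ × Bool) < Module.finrank (fixF σ) A := by
    rw [Nat.card_prod, Nat.card_eq_fintype_card, Nat.card_eq_fintype_card, Fintype.card_coe,
      Fintype.card_bool]
    omega
  obtain ⟨v, hv0, hv⟩ := chev_warn (k := fixF σ) A Q hcard
  refine ⟨v, v.2, fun h0 => hv0 (Subtype.ext h0), fun l hl => ?_⟩
  have e1 := congrArg (Subtype.val) (hv (⟨l, hl⟩, false))
  have e2 := congrArg (Subtype.val) (hv (⟨l, hl⟩, true))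
  have e1' : h (v : V) (l (v : V)) + σ (h (v : V) (l (v : V))) = 0 := by
    have : (1 : k) * h (v : V) (l (v : V)) + σ ((1 : k) * h (v : V) (l (v : V))) = 0 := e1
    rwa [one_mul] at this
  have e2' : ξ * h (v : V) (l (v : V)) + σ (ξ * h (v : V) (l (v : V))) = 0 := e2
  rw [map_mul] at e2'
  have e3 : (ξ - σ ξ) * h (v : V) (l (v : V)) = 0 := by
    linear_combination e2' - σ ξ * e1'
  rcases mul_eq_zero.1 e3 with h' | h'
  · exact absurd (sub_eq_zero.1 h').symm hξ
  · exact h'

end H49KB
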