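import Pool.Agent.H49.KB.Defs
import Pool.Agent.H49.KB.HZ

namespace H49KB

open H49KA

universe u v w

variable {k : Type} [Field k] [Finite k] {V : Type} [AddCommGroup V] [Module k V]
  [FiniteDimensional k V]

theorem root_SU (Γ : Subgroup (V ≃ₗ[k] V)) (hΓ : IsSU Γ) (Λ : Finset (V ≃ₗ[k] V))
    (hΛ : ∀ l ∈ Λ, l ∈ Γ) (f : V ≃ₗ[k] V) (hf : f ∈ Λ) (A : Submodule k V)
    (hA : Module.finrank k A = 4 * Λ.card + 5) (hd : Disjoint A (A.map (f : V →ₗ[k] V))) :
    ∃ x ∈ Γ, (∀ l ∈ Λ, Commute x (l * x * l⁻¹)) ∧ f * x * f⁻¹ * x⁻¹ ∉ Scal k V := by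
  classical
  obtain ⟨σ, h, ⟨a, ha⟩, hσ2, hherm, hnd, hmem⟩ := hΓ
  obtain ⟨v, hvA, hv0, hv⟩ := herm_zero σ h ⟨a, ha⟩ hσ2 (insert 1 Λ) A (by
    have := Finset.card_insert_le (1 : V ≃ₗ[k] V) Λ
    omega)
  have hvv : h v v = 0 := hv 1 (Finset.mem_insert_self _ _)
  have hvl : ∀ l ∈ Λ, h v (l v) = 0 := fun l hl => hv l (Finset.mem_insert_of_mem hl)
  have hlv : ∀ l ∈ Λ, h (l v) v = 0 := fun l hl => by rw [hherm v (l v), hvl l hl, map_zero]
  -- the constant
  set e : k := a - σ a with he
  have hσe : σ e = -e := by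
    rw [he, map_sub, hσ2]
    ring
  have he0 : e ≠ 0 := by
    intro h0
    exact ha (sub_eq_zero.1 h0).symm
  -- the transvection
  let φ : Module.Dual k V :=
    { toFun := fun y => e * h y v
      map_add' := fun y z => by rw [map_add, LinearMap.add_apply, mul_add]
      map_smul' := fun c y => by
        rw [map_smul, LinearMap.smul_apply, smul_eq_mul, smul_eq_mul, RingHom.id_apply]
        ring }
  have hφ : ∀ y, φ y = e * h y v := fun y => rfl
  have hφv : φ v = 0 := by rw [hφ, hvv, mul_zero]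
  let x : V ≃ₗ[k] V := LinearEquiv.transvection hφv
  have hx : ∀ y, x y = y + (e * h y v) • v := fun y => rfl
  have hxΓ : x ∈ Γ := by
    rw [hmem]
    refine ⟨?_, ?_⟩
    · have h1 := LinearEquiv.transvection.det_eq_one hφv
      have h2 := congrArg Units.val h1
      rwa [LinearEquiv.coe_det, Units.val_one] at h2
    · intro y z
      have e1 : h (y + (e * h y v) • v) = h y + (e * h y v) • h v := by
        rw [map_add, map_smul]
      have e2 : ∀ w : V, h w (z + (e * h z v) • v) = h w z + σ (e * h z v) * h w v := by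
        intro w
        rw [map_add, LinearMap.map_smulₛₗ, smul_eq_mul]
      rw [hx, hx, e1, LinearMap.add_apply, LinearMap.smul_apply, e2, e2, hvv, map_mul, hσe,
        ← hherm z v, smul_eq_mul]
      ring
  -- its conjugates
  have hconj : ∀ l ∈ Γ, ∀ y, (l * x * l⁻¹) y = y + (e * h y (l v)) • l v := by
    intro l hl y
    have h1 : l (l⁻¹ y) = y := by
      rw [← LinearEquiv.mul_apply, mul_inv_cancel]; rfl
    have h2 : h (l⁻¹ y) v = h y (l v) := by
      rw [← ((hmem l).1 hl).2 (l⁻¹ y) v, h1]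
    rw [LinearEquiv.mul_apply, LinearEquiv.mul_apply, hx, map_add, map_smul, h1, h2]
  refine ⟨x, hxΓ, ?_, ?_⟩
  · intro l hl
    show x * (l * x * l⁻¹) = (l * x * l⁻¹) * x
    ext y
    rw [LinearEquiv.mul_apply, LinearEquiv.mul_apply (l * x * l⁻¹) x, hconj l (hΛ l hl),
      hconj l (hΛ l hl), hx, hx]
    rw [map_add h, map_add h, LinearMap.add_apply, LinearMap.add_apply, map_smul h, map_smul h,
      LinearMap.smul_apply, LinearMap.smul_apply, hlv l hl, hvl l hl, smul_zero, smul_zero,
      add_zero, add_zero]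
    abel
  · rintro ⟨c, hc⟩
    have hfΓ : f ∈ Γ := hΛ f hf
    have hfv0 : f v ≠ 0 := fun h0 => hv0 (f.map_eq_zero_iff.1 h0)
    -- the relation
    have h1 : ∀ y, (f * x * f⁻¹) y = c • x y := by
      intro y
      have h2 := hc (x y)
      have h3 : x⁻¹ (x y) = y := by
        rw [← LinearEquiv.mul_apply, inv_mul_cancel]; rfl
      rwa [LinearEquiv.mul_apply, h3] at h2
    have hc1 : c = 1 := by
      have h2 := h1 v
      rw [hconj f hfΓ, hx, hvl f hf, hvv, mul_zero, zero_smul, zero_smul, add_zero] at h2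
      have h3 : (c - 1) • v = 0 := by
        rw [sub_smul, one_smul, ← h2, sub_self]
      rcases smul_eq_zero.1 h3 with h4 | h4
      · exact sub_eq_zero.1 h4
      · exact absurd h4 hv0
    have h2 : ∀ y, (e * h y (f v)) • f v = (e * h y v) • v := by
      intro y
      have h3 := h1 y
      rw [hc1, one_smul, hconj f hfΓ, hx] at h3
      exact add_left_cancel h3
    have h3 : ∀ y, h y (f v) = 0 := by
      intro y
      have h4 : (e * h y (f v)) • f v ∈ A := by
        rw [h2 y]
        exact A.smul_mem _ hvA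
      have h5 : (e * h y (f v)) • f v ∈ A.map (f : V →ₗ[k] V) :=
        Submodule.smul_mem _ _ (Submodule.mem_map_of_mem hvA)
      have h6 := Submodule.disjoint_def.1 hd _ h4 h5
      rcases smul_eq_zero.1 h6 with h7 | h7
      · rcases mul_eq_zero.1 h7 with h8 | h8
        · exact absurd h8 he0
        · exact h8
      · exact absurd h7 hfv0
    apply hfv0
    apply hnd
    intro y
    rw [hherm y (f v), h3, map_zero]

end H49KB
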