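import Pool.Agent.H49.KB.Defs
import Pool.Agent.H49.KB.CW

namespace H49KB

open H49KA

universe u v w

variable {k : Type} [Field k] [Finite k] {V : Type} [AddCommGroup V] [Module k V]
  [FiniteDimensional k V]

omit [Finite k] [FiniteDimensional k V] in
private theorem rsp_alt (B : V →ₗ[k] V →ₗ[k] k) (hB : ∀ x, B x x = 0) (x y : V) :
    B x y = - B y x := by
  have h := hB (x + y)
  simp only [map_add, LinearMap.add_apply, hB, zero_add, add_zero] at h
  first
  | exact eq_neg_of_add_eq_zero_left h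
  | exact eq_neg_of_add_eq_zero_right h

/-- the symplectic transvection -/
private def rspTv (B : V →ₗ[k] V →ₗ[k] k) (hB : ∀ x, B x x = 0) (v : V) : V ≃ₗ[k] V where
  toFun y := y + B y v • v
  invFun y := y - B y v • v
  map_add' x y := by
    rw [map_add, LinearMap.add_apply, add_smul]
    abel
  map_smul' c x := by
    rw [map_smul, LinearMap.smul_apply, RingHom.id_apply, smul_add, smul_eq_mul, mul_smul]
  left_inv y := by
    simp only [map_add, map_smul, LinearMap.add_apply, LinearMap.smul_apply, hB, smul_zero,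
      add_zero, add_sub_cancel_right]
  right_inv y := by
    simp only [map_sub, map_smul, LinearMap.sub_apply, LinearMap.smul_apply, hB, smul_zero,
      sub_zero, sub_add_cancel]

omit [Finite k] [FiniteDimensional k V] in
private theorem rspTv_apply (B : V →ₗ[k] V →ₗ[k] k) (hB : ∀ x, B x x = 0) (v y : V) :
    rspTv B hB v y = y + B y v • v := rfl

omit [Finite k] [FiniteDimensional k V] in
private theorem rspTv_inv_apply (B : V →ₗ[k] V →ₗ[k] k) (hB : ∀ x, B x x = 0) (v y : V) :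
    (rspTv B hB v)⁻¹ y = y - B y v • v := rfl

omit [Finite k] [FiniteDimensional k V] in
private theorem rspTv_mem (B : V →ₗ[k] V →ₗ[k] k) (hB : ∀ x, B x x = 0) (v x y : V) :
    B (rspTv B hB v x) (rspTv B hB v y) = B x y := by
  rw [rspTv_apply, rspTv_apply]
  simp only [map_add, map_smul, LinearMap.add_apply, LinearMap.smul_apply, hB, smul_eq_mul]
  rw [rsp_alt B hB v y]
  ring

omit [Finite k] [FiniteDimensional k V] in
private theorem rspTv_conj (B : V →ₗ[k] V →ₗ[k] k) (hB : ∀ x, B x x = 0) (v : V)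
    (l : V ≃ₗ[k] V) (hl : ∀ x y, B (l x) (l y) = B x y) :
    l * rspTv B hB v * l⁻¹ = rspTv B hB (l v) := by
  ext y
  have h1 : l (l⁻¹ y) = y := by
    rw [← LinearEquiv.mul_apply, mul_inv_cancel]; rfl
  rw [LinearEquiv.mul_apply, LinearEquiv.mul_apply, rspTv_apply, rspTv_apply, map_add, map_smul,
    h1, ← hl, h1]

omit [Finite k] [FiniteDimensional k V] in
private theorem rspTv_comm (B : V →ₗ[k] V →ₗ[k] k) (hB : ∀ x, B x x = 0) (v w : V)
    (h : B v w = 0) : Commute (rspTv B hB v) (rspTv B hB w) := by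
  have h' : B w v = 0 := by rw [rsp_alt B hB, h, neg_zero]
  ext y
  rw [LinearEquiv.mul_apply, LinearEquiv.mul_apply]
  simp only [rspTv_apply, map_add, map_smul, h, h', zero_smul, add_zero]
  abel

theorem root_Sp (Γ : Subgroup (V ≃ₗ[k] V)) (hΓ : IsSp Γ) (Λ : Finset (V ≃ₗ[k] V))
    (hΛ : ∀ l ∈ Λ, l ∈ Γ) (f : V ≃ₗ[k] V) (hf : f ∈ Λ) (A : Submodule k V)
    (hA : Module.finrank k A = 4 * Λ.card + 5) (hd : Disjoint A (A.map (f : V →ₗ[k] V))) :
    ∃ x ∈ Γ, (∀ l ∈ Λ, Commute x (l * x * l⁻¹)) ∧ f * x * f⁻¹ * x⁻¹ ∉ Scal k V := by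
  obtain ⟨B, hB, hB0, hG⟩ := hΓ
  obtain ⟨⟨v, hvA⟩, hv0, hv⟩ := chev_warn (k := k) A (ι := Λ)
    (fun l => LinearMap.BilinMap.toQuadraticMap
      (B.compl₁₂ A.subtype (((l : V ≃ₗ[k] V) : V →ₗ[k] V) ∘ₗ A.subtype)))
    (by rw [Nat.card_eq_fintype_card, Fintype.card_coe, hA]; omega)
  have hv0' : v ≠ 0 := fun h => hv0 (Subtype.ext h)
  have hvl : ∀ l ∈ Λ, B v (l v) = 0 := fun l hl => hv ⟨l, hl⟩
  refine ⟨rspTv B hB v, (hG _).2 (rspTv_mem B hB v), fun l hl => ?_, ?_⟩
  · rw [rspTv_conj B hB v l ((hG l).1 (hΛ l hl))]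
    exact rspTv_comm B hB _ _ (hvl l hl)
  · rw [rspTv_conj B hB v f ((hG f).1 (hΛ f hf))]
    rintro ⟨c, hc⟩
    have key : ∀ y, y - B y v • v + B y (f v) • f v = c • y := by
      intro y
      rw [← hc y, LinearEquiv.mul_apply, rspTv_inv_apply, rspTv_apply, map_sub, map_smul,
        LinearMap.sub_apply, LinearMap.smul_apply, hvl f hf, smul_zero, sub_zero]
    have hc1 : c = 1 := by
      have h1 := key v
      rw [hB, hvl f hf, zero_smul, zero_smul, sub_zero, add_zero] at h1
      have h2 : (1 - c) • v = 0 := by rw [sub_smul, one_smul, ← h1, sub_self]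
      rcases smul_eq_zero.1 h2 with h3 | h3
      · exact (sub_eq_zero.1 h3).symm
      · exact absurd h3 hv0'
    apply hv0'
    apply hB0
    intro y
    have h1 := key y
    rw [hc1, one_smul] at h1
    have h2 : B y v • v = B y (f v) • f v := by
      have h3 : y - B y v • v + B y (f v) • f v - y = 0 := by rw [h1, sub_self]
      rw [← sub_eq_zero, ← neg_eq_zero, ← h3]
      abel
    have h3 : B y v • v = 0 := by
      refine (Submodule.disjoint_def.1 hd) _ (A.smul_mem _ hvA) ?_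
      rw [h2]
      exact Submodule.smul_mem _ _ ⟨v, hvA, rfl⟩
    rcases smul_eq_zero.1 h3 with h4 | h4
    · rw [rsp_alt B hB, h4, neg_zero]
    · exact absurd h4 hv0'

end H49KB
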