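import Pool.Agent.H49.KB.Defs

namespace H49KB

open H49KA

universe u v w

variable {k : Type} [Field k] [Finite k] {V : Type} [AddCommGroup V] [Module k V]
  [FiniteDimensional k V]

omit [Finite k] in
private theorem S1_smallRank (c : ℕ) (g : V ≃ₗ[k] V) (a : k)
    (h : Module.finrank k (LinearMap.range ((g : V →ₗ[k] V) - a • LinearMap.id)) ≤ c) :
    SmallRank c g a := by
  classical
  let R := LinearMap.range ((g : V →ₗ[k] V) - a • LinearMap.id)
  let b := Module.finBasis k R
  let w : Fin c → V := fun i =>
    if hi : i.1 < Module.finrank k R then (b ⟨i.1, hi⟩ : V) else 0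
  refine ⟨w, fun v => ?_⟩
  have hR : R ≤ Submodule.span k (Set.range w) := by
    intro x hx
    have h1 := b.sum_repr ⟨x, hx⟩
    have h2 : x = ∑ i, (b.repr ⟨x, hx⟩ i) • (b i : V) := by
      have h3 := congrArg (fun y : R => (y : V)) h1
      simp only [Submodule.coe_sum, Submodule.coe_smul] at h3
      exact h3.symm
    rw [h2]
    refine Submodule.sum_mem _ fun i _ => Submodule.smul_mem _ _ ?_
    refine Submodule.subset_span ⟨⟨i.1, lt_of_lt_of_le i.2 h⟩, ?_⟩
    simp only [w]
    rw [dif_pos i.2]
  have hv : g v - a • v ∈ R := ⟨v, by simp⟩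
  obtain ⟨d, hd⟩ := (Submodule.mem_span_range_iff_exists_fun k).1 (hR hv)
  exact ⟨d, hd.symm⟩

private theorem S1_vector (m j : ℕ) (hj : j < m) (g : V ≃ₗ[k] V)
    (hg : ∀ a, ¬ SmallRank (2 * m) g a) (B : Submodule k V)
    (hB : Module.finrank k B ≤ 2 * j) :
    ∃ a : V, a ∉ B ∧ ∀ c : k, g a - c • a ∉ B := by
  classical
  by_contra hcon
  push Not at hcon
  have : Finite V := Module.finite_of_finite k
  have : Fintype k := Fintype.ofFinite k
  let n := Module.finrank k V
  let q := Nat.card k
  have hq : 2 ≤ q := by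
    have : 1 < Nat.card k := Finite.one_lt_card
    exact this
  have hrk : ∀ a : k, 2 * m < Module.finrank k
      (LinearMap.range ((g : V →ₗ[k] V) - a • LinearMap.id)) := by
    intro a
    by_contra h
    exact hg a (S1_smallRank (2 * m) g a (not_lt.1 h))
  have hn : 2 * m + 1 ≤ n := by
    have h1 := hrk 0
    have h2 : Module.finrank k (LinearMap.range ((g : V →ₗ[k] V) - (0 : k) • LinearMap.id)) ≤ n :=
      Submodule.finrank_le _
    omega
  let S : Option k → Submodule k V := fun o =>
    match o with
    | none => B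
    | some c => B.comap ((g : V →ₗ[k] V) - c • LinearMap.id)
  have hS : ∀ o, Module.finrank k (S o) ≤ n - 3 := by
    intro o
    rcases o with _ | c
    · change Module.finrank k B ≤ n - 3
      omega
    · change Module.finrank k (B.comap ((g : V →ₗ[k] V) - c • LinearMap.id)) ≤ n - 3
      set φ := (g : V →ₗ[k] V) - c • LinearMap.id with hφ
      have h1 := LinearMap.finrank_range_add_finrank_ker φ
      have h2 := hrk c
      rw [← hφ] at h2
      -- restrict the map to the preimage
      let ψ : (B.comap φ) →ₗ[k] V := φ.domRestrict (B.comap φ)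
      have h3 := LinearMap.finrank_range_add_finrank_ker ψ
      have h4 : Module.finrank k (LinearMap.range ψ) ≤ Module.finrank k B := by
        apply Submodule.finrank_mono
        rintro _ ⟨x, rfl⟩
        exact x.2
      have h5 : Module.finrank k (LinearMap.ker ψ) ≤ Module.finrank k (LinearMap.ker φ) := by
        let ι : LinearMap.ker ψ →ₗ[k] LinearMap.ker φ :=
          LinearMap.codRestrict _ ((B.comap φ).subtype.comp (LinearMap.ker ψ).subtype)
            (fun x => by
              have := x.2
              rw [LinearMap.mem_ker] at this ⊢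
              exact this)
        apply LinearMap.finrank_le_finrank_of_injective (f := ι)
        intro x y hxy
        have := congrArg (fun z : LinearMap.ker φ => (z : V)) hxy
        exact Subtype.ext (Subtype.ext this)
      change _ + _ = n at h1
      change Module.finrank k (B.comap φ) ≤ n - 3
      omega
  have hcard : ∀ o, Nat.card (S o) ≤ q ^ (n - 3) := by
    intro o
    rw [Module.natCard_eq_pow_finrank (K := k)]
    exact Nat.pow_le_pow_right (by omega) (hS o)
  have hsurj : Function.Surjective (fun x : (Σ o, S o) => (x.2 : V)) := by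
    intro v
    by_cases hv : v ∈ B
    · exact ⟨⟨none, ⟨v, hv⟩⟩, rfl⟩
    · obtain ⟨c, hc⟩ := hcon v hv
      refine ⟨⟨some c, ⟨v, ?_⟩⟩, rfl⟩
      change v ∈ B.comap ((g : V →ₗ[k] V) - c • LinearMap.id)
      rw [Submodule.mem_comap]
      simpa using hc
  have h6 := Nat.card_le_card_of_surjective _ hsurj
  rw [Nat.card_sigma] at h6
  have h7 : ∑ o, Nat.card (S o) ≤ (q + 1) * q ^ (n - 3) := by
    calc ∑ o, Nat.card (S o) ≤ ∑ _o : Option k, q ^ (n - 3) :=
          Finset.sum_le_sum fun o _ => hcard o
      _ = (q + 1) * q ^ (n - 3) := by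
          rw [Finset.sum_const, Finset.card_univ, Fintype.card_option, smul_eq_mul,
            ← Nat.card_eq_fintype_card]
  have h8 : Nat.card V = q ^ n := Module.natCard_eq_pow_finrank (K := k)
  have h9 : q ^ n = q ^ 3 * q ^ (n - 3) := by
    rw [← pow_add]
    congr 1
    omega
  have h10 : q + 1 < q ^ 3 := by nlinarith [Nat.pow_le_pow_left hq 2]
  have h11 : 0 < q ^ (n - 3) := Nat.pos_of_ne_zero (pow_ne_zero _ (by omega))
  have h12 : (q + 1) * q ^ (n - 3) < q ^ 3 * q ^ (n - 3) := Nat.mul_lt_mul_of_pos_right h10 h11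
  omega

theorem subspace_exists (m : ℕ) (g : V ≃ₗ[k] V) (hg : ∀ a, ¬ SmallRank (2 * m) g a) :
    ∃ A : Submodule k V, Module.finrank k A = m ∧ Disjoint A (A.map (g : V →ₗ[k] V)) := by
  suffices h : ∀ j ≤ m, ∃ A : Submodule k V,
      Module.finrank k A = j ∧ Disjoint A (A.map (g : V →ₗ[k] V)) from h m le_rfl
  intro j
  induction j with
  | zero =>
    intro _
    exact ⟨⊥, by simp, disjoint_bot_left⟩
  | succ j ih =>
    intro hj
    obtain ⟨A, hA, hdis⟩ := ih (by omega)
    have hmap : Module.finrank k (A.map (g : V →ₗ[k] V)) = j := by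
      rw [← hA]
      exact LinearEquiv.finrank_map_eq g A
    obtain ⟨a, ha, hga⟩ := S1_vector m j (by omega) g hg (A ⊔ A.map (g : V →ₗ[k] V)) (by
      have := Submodule.finrank_add_le_finrank_add_finrank A (A.map (g : V →ₗ[k] V))
      omega)
    have key : ∀ s t : k, s • a - t • g a ∈ A ⊔ A.map (g : V →ₗ[k] V) → s = 0 ∧ t = 0 := by
      intro s t hst
      have ht : t = 0 := by
        by_contra ht
        apply hga (t⁻¹ * s)
        have h1 := Submodule.smul_mem _ (-t⁻¹) hst
        have h2 : (-t⁻¹) • (s • a - t • g a) = g a - (t⁻¹ * s) • a := by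
          rw [smul_sub, smul_smul, smul_smul, neg_mul, neg_mul, inv_mul_cancel₀ ht, neg_smul,
            neg_smul, one_smul]
          abel
        rwa [h2] at h1
      refine ⟨?_, ht⟩
      by_contra hs
      apply ha
      have h1 := Submodule.smul_mem _ s⁻¹ hst
      rw [ht, zero_smul, sub_zero, smul_smul, inv_mul_cancel₀ hs, one_smul] at h1
      exact h1
    refine ⟨A ⊔ Submodule.span k {a}, ?_, ?_⟩
    · have ha0 : a ≠ 0 := by
        rintro rfl
        exact ha (Submodule.zero_mem _)
      have hd : A ⊓ Submodule.span k {a} = ⊥ := by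
        rw [eq_bot_iff]
        rintro x ⟨hx1, hx2⟩
        obtain ⟨s, rfl⟩ := Submodule.mem_span_singleton.1 hx2
        have := (key s 0 (by
          rw [zero_smul, sub_zero]
          exact Submodule.mem_sup_left hx1)).1
        rw [this, zero_smul]
        exact Submodule.zero_mem _
      have h1 := Submodule.finrank_sup_add_finrank_inf_eq A (Submodule.span k {a})
      rw [hd, finrank_bot, finrank_span_singleton ha0, hA] at h1
      omega
    · rw [Submodule.disjoint_def]
      intro x hx hx'
      obtain ⟨u, hu, y, hy, rfl⟩ := Submodule.mem_sup.1 hx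
      obtain ⟨s, rfl⟩ := Submodule.mem_span_singleton.1 hy
      obtain ⟨z, hz, hzx⟩ := Submodule.mem_map.1 hx'
      obtain ⟨u', hu', y', hy', rfl⟩ := Submodule.mem_sup.1 hz
      obtain ⟨t, rfl⟩ := Submodule.mem_span_singleton.1 hy'
      have h1 : g (u' + t • a) = u + s • a := hzx
      rw [map_add, map_smul] at h1
      have h2 : s • a - t • g a = g u' - u := by
        rw [sub_eq_sub_iff_add_eq_add, add_comm (s • a) u, ← h1]
      have h3 := key s t (by
        rw [h2]
        exact Submodule.sub_mem _
          (Submodule.mem_sup_right (Submodule.mem_map_of_mem (f := (g : V →ₗ[k] V)) hu'))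
          (Submodule.mem_sup_left hu))
      obtain ⟨rfl, rfl⟩ := h3
      rw [zero_smul, add_zero] at h1 ⊢
      rw [zero_smul, add_zero] at h1
      rw [Submodule.disjoint_def] at hdis
      apply hdis u hu
      rw [← h1]
      exact Submodule.mem_map_of_mem (f := (g : V →ₗ[k] V)) hu'

end H49KB
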