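import Pool.Agent.H49.KB.Defs
import Pool.Agent.H49.KB.S1
import Pool.Agent.H49.KB.RSL
import Pool.Agent.H49.KB.RSp
import Pool.Agent.H49.KB.RSU
import Pool.Agent.H49.KB.ROm

namespace H49KB

open H49KA

universe u v w

variable {k : Type} [Field k] [Finite k] {V : Type} [AddCommGroup V] [Module k V]
  [FiniteDimensional k V]

theorem root_exists (Γ : Subgroup (V ≃ₗ[k] V)) (hΓ : Classical Γ) (Λ : Finset (V ≃ₗ[k] V))
    (hΛ : ∀ l ∈ Λ, l ∈ Γ) (f : V ≃ₗ[k] V) (hf : f ∈ Λ)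
    (hbig : ∀ a, ¬ SmallRank (2 * (4 * Λ.card + 5)) f a) :
    ∃ x ∈ Γ, (∀ l ∈ Λ, Commute x (l * x * l⁻¹)) ∧ f * x * f⁻¹ * x⁻¹ ∉ Scal k V := by
  obtain ⟨A, hA, hd⟩ := subspace_exists _ f hbig
  rcases hΓ with h | h | h | h
  · exact root_SL Γ h Λ f hf A hA hd
  · exact root_Sp Γ h Λ hΛ f hf A hA hd
  · exact root_SU Γ h Λ hΛ f hf A hA hd
  · exact root_Om Γ h Λ hΛ f hf A hA hd

end H49KB
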