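import Pool.Agent.H49.KA.Base
import Pool.Agent.H49.KB.Defs

namespace H49KB

open H49KA

universe u v w

variable {G : Type u} [Group G]

theorem smallRank_mono {k : Type v} [Field k] {V : Type w} [AddCommGroup V] [Module k V]
    {c c' : ℕ} (hc : c ≤ c') {g : V ≃ₗ[k] V} {a : k} (h : SmallRank c g a) :
    SmallRank c' g a := by
  induction c', hc using Nat.le_induction with
  | base => exact h
  | succ n _ ih =>
    obtain ⟨w, hw⟩ := ih
    refine ⟨fun i : Fin (n + 1) => if h : (i : ℕ) < n then w ⟨i, h⟩ else 0, fun v => ?_⟩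
    obtain ⟨b, hb⟩ := hw v
    refine ⟨fun i : Fin (n + 1) => if h : (i : ℕ) < n then b ⟨i, h⟩ else 0, ?_⟩
    rw [hb, Fin.sum_univ_castSucc]
    simp

theorem smallRank_of_finrank {k : Type v} [Field k] {V : Type w} [AddCommGroup V] [Module k V]
    [FiniteDimensional k V] {c : ℕ} (hc : Module.finrank k V ≤ c) (g : V ≃ₗ[k] V) (a : k) :
    SmallRank c g a := by
  refine smallRank_mono hc ⟨Module.finBasis k V, fun v => ?_⟩
  refine ⟨fun i => (Module.finBasis k V).repr (g v - a • v) i, ?_⟩
  exact ((Module.finBasis k V).sum_repr (g v - a • v)).symm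

end H49KB
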