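import Pool.Agent.H49.KA.Base
import Pool.Agent.H49.KB.Defs
import Pool.Agent.H49.KB.RE
import Pool.Agent.H49.KB.SR

namespace H49KB

open H49KA

universe u v w

variable {G : Type u} [Group G]

theorem class_E (X C F L : Subgroup G) (hL : Finite L) (hFL : F ≤ L) (hLX : L ≤ X)
    (hCX : C ≤ X) (k : Type) [Field k] [Finite k] (V : Type) [AddCommGroup V] [Module k V]
    [FiniteDimensional k V] (Γ : Subgroup (V ≃ₗ[k] V)) (p : X →* PGrp k V)
    (hΓ : Classical Γ) (hp : ∀ t : X, p t = 1 ↔ (t : G) ∈ C)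
    (hr : p.range = Γ.map (QuotientGroup.mk' (Scal k V))) (f : X) (hf : (f : G) ∈ F)
    (hbig : ∀ (g : V ≃ₗ[k] V) (a : k), p f = (g : PGrp k V) →
      ¬ SmallRank (2 * (4 * Nat.card L + 5)) g a) :
    ∃ E : Subgroup G, C ≤ E ∧ E ≤ X ∧ NormIn L E ∧
      (∀ a ∈ E, ∀ b ∈ E, a * b * a⁻¹ * b⁻¹ ∈ C) ∧
      ∃ a ∈ E, ∃ f ∈ F, a * f * a⁻¹ * f⁻¹ ∉ C := by
  classical
  have := Fintype.ofFinite L
  -- lifts
  have hlift : ∀ t : X, ∃ g ∈ Γ, (QuotientGroup.mk' (Scal k V)) g = p t := by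
    intro t
    have h1 : p t ∈ p.range := ⟨t, rfl⟩
    rw [hr] at h1
    exact Subgroup.mem_map.mp h1
  choose lft hlftΓ hlft using hlift
  let ι : L → X := fun l => ⟨l, hLX l.2⟩
  let Λ : Finset (V ≃ₗ[k] V) := Finset.univ.image fun l : L => lft (ι l)
  have hΛcard : Λ.card ≤ Nat.card L := by
    refine Finset.card_image_le.trans ?_
    rw [Finset.card_univ, Nat.card_eq_fintype_card]
  have hfL : (f : G) ∈ L := hFL hf
  have hfι : ι ⟨f, hfL⟩ = f := rfl
  have hfΛ : lft f ∈ Λ := by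
    refine Finset.mem_image.mpr ⟨⟨f, hfL⟩, Finset.mem_univ _, ?_⟩
    rw [hfι]
  have hΛΓ : ∀ l ∈ Λ, l ∈ Γ := by
    intro l hl
    obtain ⟨m, -, rfl⟩ := Finset.mem_image.mp hl
    exact hlftΓ _
  obtain ⟨y, hyΓ, hyc, hys⟩ := root_exists Γ hΓ Λ hΛΓ (lft f) hfΛ (by
    intro a ha
    exact hbig (lft f) a (hlft f).symm (smallRank_mono (by omega) ha))
  obtain ⟨x, hx⟩ : ∃ x : X, p x = (QuotientGroup.mk' (Scal k V)) y := by
    have h1 : (QuotientGroup.mk' (Scal k V)) y ∈ p.range := by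
      rw [hr]
      exact Subgroup.mem_map_of_mem _ hyΓ
    exact h1
  let S : Set (PGrp k V) := Set.range fun l : L => p (ι l) * p x * (p (ι l))⁻¹
  have hιmul : ∀ l m : L, ι (l * m) = ι l * ι m := fun l m => rfl
  have hιinv : ∀ l : L, ι l⁻¹ = (ι l)⁻¹ := fun l => rfl
  -- the elements of `S` commute
  have hcomm1 : ∀ l : L, Commute (p x) (p (ι l) * p x * (p (ι l))⁻¹) := by
    intro l
    have h1 := hyc (lft (ι l)) (Finset.mem_image.mpr ⟨l, Finset.mem_univ _, rfl⟩)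
    have h2 := h1.map (QuotientGroup.mk' (Scal k V))
    rw [map_mul, map_mul, map_inv, hlft, ← hx] at h2
    exact h2
  have hcomm2 : ∀ a ∈ S, ∀ b ∈ S, Commute a b := by
    rintro _ ⟨l, rfl⟩ _ ⟨m, rfl⟩
    have h1 := hcomm1 (l⁻¹ * m)
    rw [hιmul, hιinv, map_mul, map_inv] at h1
    have h2 : Commute (p (ι l) * p x * (p (ι l))⁻¹)
        (p (ι l) * ((p (ι l))⁻¹ * p (ι m) * p x * ((p (ι l))⁻¹ * p (ι m))⁻¹) * (p (ι l))⁻¹) := by
      have h3 := h1.map (MulAut.conj (p (ι l))).toMonoidHom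
      simpa only [MulEquiv.coe_toMonoidHom, MulAut.conj_apply] using h3
    have h4 : p (ι l) * ((p (ι l))⁻¹ * p (ι m) * p x * ((p (ι l))⁻¹ * p (ι m))⁻¹) * (p (ι l))⁻¹ =
        p (ι m) * p x * (p (ι m))⁻¹ := by group
    rw [h4] at h2
    exact h2
  have hcomm3 : ∀ a ∈ Subgroup.closure S, ∀ b ∈ Subgroup.closure S, Commute a b := by
    intro a ha b hb
    induction ha, hb using Subgroup.closure_induction₂ with
    | mem a b ha hb => exact hcomm2 a ha b hb
    | one_left b hb => exact Commute.one_left b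
    | one_right a ha => exact Commute.one_right a
    | mul_left a b c _ _ _ h1 h2 => exact h1.mul_left h2
    | mul_right a b c _ _ _ h1 h2 => exact h1.mul_right h2
    | inv_left a b _ _ h => exact h.inv_left
    | inv_right a b _ _ h => exact h.inv_right
  -- `S` is invariant
  have hinv : ∀ l : L, ∀ a ∈ Subgroup.closure S, p (ι l) * a * (p (ι l))⁻¹ ∈ Subgroup.closure S := by
    intro l a ha
    induction ha using Subgroup.closure_induction with
    | mem a ha =>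
      obtain ⟨m, rfl⟩ := ha
      apply Subgroup.subset_closure
      refine ⟨l * m, ?_⟩
      show p (ι (l * m)) * p x * (p (ι (l * m)))⁻¹ = _
      rw [hιmul, map_mul]
      group
    | one =>
      rw [mul_one, mul_inv_cancel]
      exact one_mem _
    | mul a b _ _ h1 h2 =>
      have h3 : p (ι l) * (a * b) * (p (ι l))⁻¹ =
          (p (ι l) * a * (p (ι l))⁻¹) * (p (ι l) * b * (p (ι l))⁻¹) := by group
      rw [h3]
      exact mul_mem h1 h2
    | inv a _ h1 =>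
      have h3 : p (ι l) * a⁻¹ * (p (ι l))⁻¹ = (p (ι l) * a * (p (ι l))⁻¹)⁻¹ := by group
      rw [h3]
      exact inv_mem h1
  refine ⟨((Subgroup.closure S).comap p).map X.subtype, ?_, ?_, ?_, ?_, ?_⟩
  · intro c hc
    refine ⟨⟨c, hCX hc⟩, ?_, rfl⟩
    show p ⟨c, hCX hc⟩ ∈ Subgroup.closure S
    rw [(hp ⟨c, hCX hc⟩).mpr hc]
    exact one_mem _
  · rintro _ ⟨e, -, rfl⟩
    exact e.2
  · rintro l hl _ ⟨e, he, rfl⟩
    refine ⟨ι ⟨l, hl⟩ * e * (ι ⟨l, hl⟩)⁻¹, ?_, rfl⟩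
    show p (ι ⟨l, hl⟩ * e * (ι ⟨l, hl⟩)⁻¹) ∈ Subgroup.closure S
    rw [map_mul, map_mul, map_inv]
    exact hinv ⟨l, hl⟩ _ he
  · rintro _ ⟨a, ha, rfl⟩ _ ⟨b, hb, rfl⟩
    have h1 : Commute (p a) (p b) := hcomm3 _ ha _ hb
    have h2 : p (a * b * a⁻¹ * b⁻¹) = 1 := by
      rw [map_mul, map_mul, map_mul, map_inv, map_inv, h1.eq]
      group
    exact (hp _).mp h2
  · refine ⟨x, ⟨x, ?_, rfl⟩, f, hf, ?_⟩
    · show p x ∈ Subgroup.closure S
      apply Subgroup.subset_closure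
      refine ⟨1, ?_⟩
      show p (ι 1) * p x * (p (ι 1))⁻¹ = p x
      have h1 : ι 1 = 1 := rfl
      rw [h1, map_one, one_mul, inv_one, mul_one]
    · intro hC
      have h1 : p (x * f * x⁻¹ * f⁻¹) = 1 := (hp (x * f * x⁻¹ * f⁻¹)).mpr hC
      apply hys
      rw [map_mul, map_mul, map_mul, map_inv, map_inv] at h1
      have h2 : p x * p f = p f * p x := by
        have h3 : p x * p f = (p x * p f * (p x)⁻¹ * (p f)⁻¹) * (p f * p x) := by group
        rw [h3, h1, one_mul]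
      have h4 : (QuotientGroup.mk' (Scal k V)) (lft f * y * (lft f)⁻¹ * y⁻¹) = 1 := by
        rw [map_mul, map_mul, map_mul, map_inv, map_inv, hlft, ← hx, ← h2]
        group
      exact (QuotientGroup.eq_one_iff _).mp h4

end H49KB
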