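import Pool.Agent.H49.KA.Base
import Pool.Agent.H49.KB.Defs
import Pool.Agent.H49.KA.Defs
import Pool.Agent.H49.KA.A1
import Pool.Agent.H49.KA.A2
import Pool.Agent.H49.KA.D1
import Pool.Agent.H49.KA.D2
import Pool.Agent.H49.KA.D3

open Equiv

namespace H49KB

open H49KA

universe u v w

variable {G : Type u} [Group G]

private theorem P2_fin (hG : LocFin G) (S : Set G) (hS : S.Finite) :
    Finite (Subgroup.closure S) := by
  have h := hG hS.toFinset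
  rwa [Set.Finite.coe_toFinset] at h

private theorem P2_big (hG : LocFin G) [Infinite G] (H : Subgroup G) [Finite H] (n : ℕ) :
    ∃ H' : Subgroup G, Finite H' ∧ H ≤ H' ∧ n ≤ Nat.card H' := by
  obtain ⟨S, hS⟩ := Infinite.exists_subset_card_eq G n
  have hf : Finite (Subgroup.closure ((S : Set G) ∪ (H : Set G))) :=
    P2_fin hG _ (S.finite_toSet.union (Set.toFinite _))
  refine ⟨Subgroup.closure ((S : Set G) ∪ (H : Set G)), hf,
    fun x hx => Subgroup.subset_closure (Or.inr hx), ?_⟩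
  have h1 : Nat.card S ≤ Nat.card (Subgroup.closure ((S : Set G) ∪ (H : Set G))) := by
    refine Nat.card_le_card_of_injective
      (fun s : S => (⟨(s : G), Subgroup.subset_closure (Or.inl s.2)⟩ :
        Subgroup.closure ((S : Set G) ∪ (H : Set G)))) ?_
    intro a b hab
    simp only [Subtype.mk.injEq] at hab
    exact Subtype.ext hab
  rw [Nat.card_eq_fintype_card, Fintype.card_coe, hS] at h1
  exact h1

private theorem P2_inj (X T C L : Subgroup G) (h : AlmostSimpleSec X T C) (hLX : L ≤ X)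
    (hLC : ∀ y ∈ L, y ∈ C → y = 1) (n : ℕ) (p : T →* Perm (Fin n))
    (hp : ∀ t : T, p t = 1 ↔ (t : G) ∈ C) :
    Nat.card L ≤ (n.factorial) ^ (n.factorial) := by
  classical
  obtain ⟨hTX, hXC, hXT, hsec, hcent⟩ := h
  have hconj : ∀ (x : L) (t : T), (x : G) * (t : G) * (x : G)⁻¹ ∈ T := fun x t =>
    hXT x (hLX x.2) t t.2
  have hCT : C ≤ T := hsec.1
  -- key congruence
  have key : ∀ (x : L) (t t' : T), p t = p t' →
      p ⟨(x : G) * (t : G) * (x : G)⁻¹, hconj x t⟩ =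
        p ⟨(x : G) * (t' : G) * (x : G)⁻¹, hconj x t'⟩ := by
    intro x t t' htt
    have h1 : ((t'⁻¹ * t : T) : G) ∈ C := by
      rw [← hp, map_mul, map_inv, htt, inv_mul_cancel]
    have h2 : (x : G) * ((t'⁻¹ * t : T) : G) * (x : G)⁻¹ ∈ C := hXC x (hLX x.2) _ h1
    have h3 : (⟨(x : G) * (t : G) * (x : G)⁻¹, hconj x t⟩ : T) =
        ⟨(x : G) * (t' : G) * (x : G)⁻¹, hconj x t'⟩ *
          ⟨(x : G) * ((t'⁻¹ * t : T) : G) * (x : G)⁻¹, hCT h2⟩ := by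
      apply Subtype.ext
      simp only [Subgroup.coe_mul, Subgroup.coe_inv]
      group
    rw [h3, map_mul, (hp ⟨(x : G) * ((t'⁻¹ * t : T) : G) * (x : G)⁻¹, hCT h2⟩).2 h2, mul_one]
  let Φ : L → (Perm (Fin n) → Perm (Fin n)) := fun x s =>
    if hs : ∃ t : T, p t = s then
      p ⟨(x : G) * ((Classical.choose hs : T) : G) * (x : G)⁻¹, hconj x _⟩
    else 1
  have hΦ : ∀ (x : L) (t : T), Φ x (p t) = p ⟨(x : G) * (t : G) * (x : G)⁻¹, hconj x t⟩ := by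
    intro x t
    have hs : ∃ t' : T, p t' = p t := ⟨t, rfl⟩
    simp only [Φ]
    rw [dif_pos hs]
    exact key x _ _ (Classical.choose_spec hs)
  have hinj : Function.Injective Φ := by
    intro x x' hxx
    have h1 : ∀ t ∈ T, ((x' : G)⁻¹ * (x : G)) * t * ((x' : G)⁻¹ * (x : G))⁻¹ * t⁻¹ ∈ C := by
      intro t ht
      have h2 : p ⟨(x : G) * t * (x : G)⁻¹, hconj x ⟨t, ht⟩⟩ =
          p ⟨(x' : G) * t * (x' : G)⁻¹, hconj x' ⟨t, ht⟩⟩ := by
        rw [← hΦ x ⟨t, ht⟩, ← hΦ x' ⟨t, ht⟩, hxx]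
      have h3 : p (⟨(x : G) * t * (x : G)⁻¹, hconj x ⟨t, ht⟩⟩ *
          (⟨(x' : G) * t * (x' : G)⁻¹, hconj x' ⟨t, ht⟩⟩)⁻¹) = 1 := by
        rw [map_mul, map_inv, h2, mul_inv_cancel]
      have h4 := (hp _).1 h3
      have h5 := hXC ((x' : G)⁻¹) (X.inv_mem (hLX x'.2)) _ h4
      have h6 : (x' : G)⁻¹ * (((⟨(x : G) * t * (x : G)⁻¹, hconj x ⟨t, ht⟩⟩ : T) *
          (⟨(x' : G) * t * (x' : G)⁻¹, hconj x' ⟨t, ht⟩⟩ : T)⁻¹ : T) : G) * ((x' : G)⁻¹)⁻¹ =
          ((x' : G)⁻¹ * (x : G)) * t * ((x' : G)⁻¹ * (x : G))⁻¹ * t⁻¹ := by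
        simp only [Subgroup.coe_mul, Subgroup.coe_inv]
        group
      rw [h6] at h5
      exact h5
    have h7 : (x' : G)⁻¹ * (x : G) ∈ C :=
      hcent _ (X.mul_mem (X.inv_mem (hLX x'.2)) (hLX x.2)) h1
    have h8 := hLC _ (L.mul_mem (L.inv_mem x'.2) x.2) h7
    apply Subtype.ext
    exact (inv_mul_eq_one.1 h8).symm
  have h9 := Nat.card_le_card_of_injective Φ hinj
  have h10 : Nat.card (Perm (Fin n) → Perm (Fin n)) = (n.factorial) ^ (n.factorial) := by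
    rw [Nat.card_fun, Nat.card_perm]
    simp
  rw [h10] at h9
  exact h9

theorem alt_case (hG : LocFin G) [IsSimpleGroup G] [Infinite G] (hC : NoConf G)
    (F L : Subgroup G) (hL : Finite L) (hF : F ≠ ⊥) (hFL : F ≤ L) :
    ∃ M : Subgroup G, Finite M ∧ L ≤ M ∧ ∀ X : Subgroup G, Finite X → M ≤ X →
      ∀ T C : Subgroup G, AlmostSimpleSec X T C → AltSec T C → ¬ F ≤ C →
        ∃ E : Subgroup G, C ≤ E ∧ E ≤ T ∧ NormIn L E ∧
          (∀ a ∈ E, ∀ b ∈ E, a * b * a⁻¹ * b⁻¹ ∈ C) ∧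
          ∃ a ∈ E, ∃ f ∈ F, a * f * a⁻¹ * f⁻¹ ∉ C := by
  obtain ⟨N, hN5, hN⟩ := aut_alt
  have := hL
  obtain ⟨L', hL'f, hLL', hL'c⟩ := P2_big hG L ((N.factorial) ^ (N.factorial) + 1)
  have := hL'f
  obtain ⟨L₃, hL₃f, hL'L₃, hL₃c⟩ := P2_big hG L' (3 * Nat.card L')
  have := hL₃f
  obtain ⟨K₀, hK₀f, hL₃K₀, hro⟩ := exists_ro hG hC L₃
  obtain ⟨Y', hY'f, hL'Y', hplus⟩ := exists_plus hG L'
  have := hK₀f
  have := hY'f
  have hMf : Finite (Subgroup.closure ((K₀ : Set G) ∪ (Y' : Set G))) :=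
    P2_fin hG _ ((Set.toFinite _).union (Set.toFinite _))
  refine ⟨Subgroup.closure ((K₀ : Set G) ∪ (Y' : Set G)), hMf, ?_, ?_⟩
  · intro x hx
    exact Subgroup.subset_closure (Or.inl (hL₃K₀ (hL'L₃ (hLL' hx))))
  intro X _ hMX T C hsec hAlt hFC
  have hK₀X : K₀ ≤ X := fun x hx => hMX (Subgroup.subset_closure (Or.inl hx))
  have hY'X : Y' ≤ X := fun x hx => hMX (Subgroup.subset_closure (Or.inr hx))
  have hLC : ∀ y ∈ L', y ∈ C → y = 1 := by
    intro y hy hyC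
    by_contra hy1
    have h1 : L' ≤ C := hplus C (fun x hx t ht => hsec.2.1 x (hY'X hx) t ht) ⟨y, hy, hy1, hyC⟩
    exact hFC (fun f hf => h1 (hLL' (hFL hf)))
  obtain ⟨n, p, hp, hr⟩ := hAlt
  have hn : N ≤ n := by
    by_contra hlt
    push Not at hlt
    have h1 := P2_inj X T C L' hsec (fun x hx => hY'X (hL'Y' hx)) hLC n p hp
    have h2 : (n.factorial) ^ (n.factorial) ≤ (N.factorial) ^ (N.factorial) := by
      have h3 : n.factorial ≤ N.factorial := Nat.factorial_le (le_of_lt hlt)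
      calc (n.factorial) ^ (n.factorial) ≤ (N.factorial) ^ (n.factorial) :=
            Nat.pow_le_pow_left h3 _
        _ ≤ (N.factorial) ^ (N.factorial) :=
            Nat.pow_le_pow_right (Nat.factorial_pos N) h3
    omega
  obtain ⟨θ, hθ, hθp⟩ := alt_action X T C hsec n (le_trans hN5 hn) (hN n hn) p hp hr
  obtain ⟨E, hCE, hET, hLE, hab, hne⟩ := alt_E X T C F L' L₃ hsec
    (le_trans hFL hLL') hL'L₃ (le_trans hL₃K₀ hK₀X) hL₃c
    (fun H hH => by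
      obtain ⟨k, hk, hk2⟩ := hro H hH
      exact ⟨k, hK₀X hk, hk2⟩) hFC n p hp hr θ hθ hθp
  exact ⟨E, hCE, hET, fun x hx t ht => hLE x (hLL' hx) t ht, hab, hne⟩

end H49KB
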