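import Pool.Agent.H49.KA.Base
import Pool.Agent.H49.KB.Defs
import Pool.Agent.H49.KA.Main
import Pool.Agent.H49.KA.SN
import Pool.Agent.H49.KB.P2
import Pool.Agent.H49.KB.BR
import Pool.Agent.H49.KB.CE

namespace H49KB

open H49KA

universe u v w

variable {G : Type u} [Group G]

theorem hypE_of_tops (hG : LocFin G) [IsSimpleGroup G] [Infinite G] (hC : NoConf G)
    (hn : ¬ Finitary G) (d : ℕ) (𝓛 : Set (Subgroup G)) (h𝓛 : LocalSystem 𝓛)
    (hT : Tops d 𝓛) : HypE 𝓛 := by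
  intro F L hL hF hFL
  have := hL
  have hFf : Finite F := Finite.of_injective _ (Subgroup.inclusion_injective hFL)
  obtain ⟨M₁, hM₁, hLM₁, h₁⟩ := alt_case hG hC F L hL hF hFL
  obtain ⟨M₂, hM₂, hFM₂, h₂⟩ := big_rank hG hn F hFf (max (2 * (4 * Nat.card L + 5)) d)
  have hMf : Finite (Subgroup.closure ((M₁ : Set G) ∪ (M₂ : Set G))) := by
    have h := hG ((Set.toFinite ((M₁ : Set G) ∪ (M₂ : Set G))).toFinset)
    rwa [Set.Finite.coe_toFinset] at h
  refine ⟨Subgroup.closure ((M₁ : Set G) ∪ (M₂ : Set G)), hMf, ?_, ?_⟩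
  · intro x hx
    exact Subgroup.subset_closure (Or.inl (hLM₁ hx))
  intro K hK X hXK hKX hXX hMX T C hsec hFC
  have hKf : Finite K := h𝓛.1 K hK
  have hXf : Finite X := Finite.of_injective _ (Subgroup.inclusion_injective hXK)
  have hM₁X : M₁ ≤ X := fun x hx => hMX (Subgroup.subset_closure (Or.inl hx))
  have hM₂X : M₂ ≤ X := fun x hx => hMX (Subgroup.subset_closure (Or.inr hx))
  rcases hT K hK X hXK hKX hXX T C hsec with h | ⟨rfl, h⟩
  · exact h₁ X hXf hM₁X T C hsec h hFC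
  have hF1 : ∃ f ∈ F, f ∉ C := by
    by_contra hcon
    push Not at hcon
    exact hFC hcon
  obtain ⟨f₀, hf₀, hf₀C⟩ := hF1
  have hCT : C ≤ T := hsec.2.2.2.1.1
  have key : ∀ (k : Type) [Field k] (V : Type) [AddCommGroup V] [Module k V]
      (p : T →* PGrp k V), (∀ t : T, p t = 1 ↔ (t : G) ∈ C) →
      ∃ f : T, (f : G) ∈ F ∧ ∀ (g : V ≃ₗ[k] V) (a : k), p f = (g : PGrp k V) →
        ¬ SmallRank (max (2 * (4 * Nat.card L + 5)) d) g a := by
    intro k _ V _ _ p hp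
    obtain ⟨f, hf, hf2⟩ := h₂ k V (p.comp (Subgroup.inclusion hM₂X))
      ⟨⟨f₀, hFM₂ hf₀⟩, hf₀, fun h => hf₀C ((hp _).1 h)⟩
    exact ⟨Subgroup.inclusion hM₂X f, hf, fun g a hg => hf2 g a hg⟩
  rcases h with ⟨k, _, _, V, _, _, _, Γ, p, hΓ, hp, hr⟩ | ⟨k, _, V, _, _, _, p, hd, hp⟩
  · obtain ⟨f, hf, hf2⟩ := key k V p hp
    exact class_E T C F L hL hFL (le_trans hLM₁ hM₁X) hCT k V Γ p hΓ hp hr f hf
      (fun g a hg hs => hf2 g a hg (smallRank_mono (le_max_left _ _) hs))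
  · obtain ⟨f, hf, hf2⟩ := key k V p hp
    obtain ⟨g, hg⟩ := QuotientGroup.mk_surjective (p f)
    exact absurd (smallRank_of_finrank (le_trans hd (le_max_right _ _)) g 0)
      (hf2 g 0 hg.symm)

theorem mainB (G : Type u) [Group G] [Infinite G] (hG : LocFin G) (hn : ¬ Finitary G)
    (d : ℕ) (𝓛 : Set (Subgroup G)) (h𝓛 : LocalSystem 𝓛) (hT : Tops d 𝓛)
    (hC : NoConf G) : AugSimple G := by
  have := simple_of_noConf hC
  exact augSimple_of_repInd hG (repInd_of hG hC 𝓛 h𝓛 (hypE_of_tops hG hC hn d 𝓛 h𝓛 hT))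

end H49KB
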